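import Pool.Agent.RKTree.Tower

/-!
# Extending towers of countable cofinality
-/

set_option autoImplicit false

open Set Filter

namespace Pool.Agent.RKTree

/-- Composition of the maps between consecutive levels: from level `m` down to level `n`. -/
def dn (G : ℕ → ℕ → ℕ) (n : ℕ) : ℕ → ℕ → ℕ
  | 0, x => x
  | m + 1, x => if n ≤ m then dn G n m (G m x) else x

theorem dn_self (G : ℕ → ℕ → ℕ) (n x : ℕ) : dn G n n x = x := by
  cases n with
  | zero => rfl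
  | succ n => rw [dn, if_neg (by omega)]

theorem dn_succ (G : ℕ → ℕ → ℕ) {n m : ℕ} (h : n ≤ m) (x : ℕ) :
    dn G n (m + 1) x = dn G n m (G m x) := by
  rw [dn, if_pos h]

theorem dn_dn (G : ℕ → ℕ → ℕ) {n k m : ℕ} (h1 : n ≤ k) (h2 : k ≤ m) (x : ℕ) :
    dn G n k (dn G k m x) = dn G n m x := by
  induction m, h2 using Nat.le_induction generalizing x with
  | base => rw [dn_self]
  | succ m hm ih => rw [dn_succ G hm, ih, dn_succ G (h1.trans hm)]

section

variable (v : ℕ → Ultrafilter ℕ) (G : ℕ → ℕ → ℕ)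

/-- Level maps on pairs (level, element). -/
def lv (n : ℕ) (y : ℕ × ℕ) : ℕ := dn G n y.1 y.2

theorem lv_lv {n m : ℕ} (h : n ≤ m) {y : ℕ × ℕ} (hy : m ≤ y.1) :
    dn G n m (lv G m y) = lv G n y := dn_dn G h hy y.2

/-- Positive sets. -/
def Pos (Y : Set (ℕ × ℕ)) : Prop :=
  ∀ n, ∀ᶠ z in (v n : Filter ℕ), ∃ y ∈ Y, n ≤ y.1 ∧ lv G n y = z

/-- The filter of a set. -/
def lfil (Y : Set (ℕ × ℕ)) : Set (Set (ℕ × ℕ)) :=
  {Z | ∃ n, ∀ᶠ z in (v n : Filter ℕ), ∀ y ∈ Y, n ≤ y.1 → lv G n y = z → y ∈ Z}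

variable {v G}

section

variable (hmap : ∀ n, (v (n + 1)).map (G n) = v n)

include hmap

theorem dn_map {n m : ℕ} (h : n ≤ m) : (v m).map (dn G n m) = v n := by
  induction m, h using Nat.le_induction with
  | base =>
    have : dn G n n = id := funext fun x => dn_self G n x
    rw [this, Ultrafilter.map_id]
  | succ m hm ih =>
    have : dn G n (m + 1) = dn G n m ∘ G m := funext fun x => dn_succ G hm x
    rw [this, ← Ultrafilter.map_map, hmap, ih]

theorem dn_pull {n m : ℕ} (h : n ≤ m) {p : ℕ → Prop} :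
    (∀ᶠ z in (v n : Filter ℕ), p z) ↔ ∀ᶠ b in (v m : Filter ℕ), p (dn G n m b) :=
  eventually_map_iff (dn_map hmap h)

theorem lfil_level {Y : Set (ℕ × ℕ)} {Z : Set (ℕ × ℕ)} {n m : ℕ} (hnm : n ≤ m)
    (h : ∀ᶠ z in (v n : Filter ℕ), ∀ y ∈ Y, n ≤ y.1 → lv G n y = z → y ∈ Z) :
    ∀ᶠ z in (v m : Filter ℕ), ∀ y ∈ Y, m ≤ y.1 → lv G m y = z → y ∈ Z := by
  rw [dn_pull hmap hnm] at h
  filter_upwards [h] with b hb y hy hy1 hy2
  refine hb y hy (hnm.trans hy1) ?_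
  rw [← lv_lv G hnm hy1, hy2]

theorem lfil_mono {Y Y' : Set (ℕ × ℕ)} (h : Y ∈ lfil v G Y') : lfil v G Y ⊆ lfil v G Y' := by
  rintro Z ⟨n, hn⟩
  obtain ⟨m, hm⟩ := h
  refine ⟨max n m, ?_⟩
  filter_upwards [lfil_level hmap (le_max_left n m) hn,
    lfil_level hmap (le_max_right n m) hm] with b h1 h2 y hy hy1 hy2
  exact h1 y (h2 y hy hy1 hy2) hy1 hy2

theorem lfil_inter (Y : Set (ℕ × ℕ)) (A : Set (ℕ × ℕ)) (hA : A ∈ lfil v G Y) (B : Set (ℕ × ℕ))
    (hB : B ∈ lfil v G Y) : A ∩ B ∈ lfil v G Y := by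
  obtain ⟨n, hn⟩ := hA
  obtain ⟨m, hm⟩ := hB
  refine ⟨max n m, ?_⟩
  filter_upwards [lfil_level hmap (le_max_left n m) hn,
    lfil_level hmap (le_max_right n m) hm] with b h1 h2 y hy hy1 hy2
  exact ⟨h1 y hy hy1 hy2, h2 y hy hy1 hy2⟩

theorem pos_of_levels {Y : Set (ℕ × ℕ)} (n : ℕ)
    (h : ∀ m, n ≤ m → ∀ᶠ z in (v m : Filter ℕ), ∃ y ∈ Y, m ≤ y.1 ∧ lv G m y = z) : Pos v G Y := by
  intro m
  rw [dn_pull hmap (le_max_left m n)]
  filter_upwards [h (max m n) (le_max_right m n)] with b hb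
  obtain ⟨y, hy, hy1, hy2⟩ := hb
  refine ⟨y, hy, (le_max_left m n).trans hy1, ?_⟩
  rw [← lv_lv G (le_max_left m n) hy1, hy2]

theorem Pos.of_mem_lfil {Y Z : Set (ℕ × ℕ)} (hY : Pos v G Y) (hZ : Z ∈ lfil v G Y) :
    Pos v G Z := by
  obtain ⟨n, hn⟩ := hZ
  refine pos_of_levels hmap n fun m hm => ?_
  filter_upwards [lfil_level hmap hm hn, hY m] with b h1 h2
  obtain ⟨y, hy, hy1, hy2⟩ := h2
  exact ⟨y, h1 y hy hy1 hy2, hy1, hy2⟩

end

theorem lfil_self (Y : Set (ℕ × ℕ)) : Y ∈ lfil v G Y :=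
  ⟨0, Eventually.of_forall fun _ y hy _ _ => hy⟩

theorem lfil_univ (Y : Set (ℕ × ℕ)) : univ ∈ lfil v G Y :=
  ⟨0, Eventually.of_forall fun _ _ _ _ _ => mem_univ _⟩

theorem lfil_sup (Y : Set (ℕ × ℕ)) (A : Set (ℕ × ℕ)) (hA : A ∈ lfil v G Y) (B : Set (ℕ × ℕ))
    (h : A ⊆ B) : B ∈ lfil v G Y := by
  obtain ⟨n, hn⟩ := hA
  exact ⟨n, hn.mono fun z hz y hy h1 h2 => h (hz y hy h1 h2)⟩

theorem lfil_empty {Y : Set (ℕ × ℕ)} (hY : Pos v G Y) : ∅ ∉ lfil v G Y := by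
  rintro ⟨n, hn⟩
  obtain ⟨z, h1, y, hy, hy1, hy2⟩ := (hn.and (hY n)).exists
  exact h1 y hy hy1 hy2

theorem level_mem_lfil (n : ℕ) (Y : Set (ℕ × ℕ)) : {y : ℕ × ℕ | n ≤ y.1} ∈ lfil v G Y :=
  ⟨n, Eventually.of_forall fun _ _ _ h _ => h⟩

theorem lv_mem_lfil (n : ℕ) (Y : Set (ℕ × ℕ)) {B : Set ℕ} (hB : B ∈ v n) :
    {y : ℕ × ℕ | lv G n y ∈ B} ∈ lfil v G Y := by
  refine ⟨n, ?_⟩
  filter_upwards [hB] with z hz y _ _ h
  change lv G n y ∈ B
  rwa [h]

/-! ### Lower bounds -/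

/-- A decreasing sequence of positive sets has a positive lower bound. -/
theorem exists_lower_pos (hmap : ∀ n, (v (n + 1)).map (G n) = v n)
    (hnp : ∀ n k, ∀ᶠ z in (v n : Filter ℕ), k ≤ z) (c : ℕ → Set (ℕ × ℕ))
    (hc : ∀ k, Pos v G (c k)) (hdec : ∀ j k, j ≤ k → c j ∈ lfil v G (c k)) :
    ∃ Y, Pos v G Y ∧ ∀ k, c k ∈ lfil v G Y := by
  classical
  set Y : ℕ → Set (ℕ × ℕ) := fun k => {y | ∀ j ≤ k, y ∈ c j} with hY
  have hYm : ∀ k, Y k ∈ lfil v G (c k) := by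
    intro k
    have h1 : ∀ l ≤ k, {y | ∀ j ≤ l, y ∈ c j} ∈ lfil v G (c k) := by
      intro l
      induction l with
      | zero =>
        intro _
        refine lfil_sup _ _ (hdec 0 k (Nat.zero_le _)) _ fun y hy j hj => ?_
        obtain rfl : j = 0 := by omega
        exact hy
      | succ l ih =>
        intro hl
        refine lfil_sup _ _ (lfil_inter hmap _ _ (ih (by omega)) _ (hdec (l + 1) k hl)) _ ?_
        rintro y ⟨hy1, hy2⟩ j hj
        rcases Nat.le_succ_iff.1 hj with h | rfl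
        · exact hy1 j h
        · exact hy2
    exact h1 k le_rfl
  have hYp : ∀ k, Pos v G (Y k) := fun k => (hc k).of_mem_lfil hmap (hYm k)
  have hYd : ∀ j k, j ≤ k → Y k ⊆ Y j := fun j k hjk y hy l hl => hy l (hl.trans hjk)
  set E : ℕ → ℕ → Set ℕ := fun n k => {z | ∃ y ∈ Y k, max n k ≤ y.1 ∧ lv G n y = z} with hE
  have hEv : ∀ n k, ∀ᶠ z in (v n : Filter ℕ), z ∈ E n k := by
    intro n k
    rw [dn_pull hmap (le_max_left n k)]
    filter_upwards [hYp k (max n k)] with b hb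
    obtain ⟨y, hy, hy1, hy2⟩ := hb
    refine ⟨y, hy, hy1, ?_⟩
    rw [← hy2]
    exact (lv_lv G (le_max_left n k) hy1).symm
  have hEd : ∀ n j k, j ≤ k → E n k ⊆ E n j := by
    rintro n j k hjk z ⟨y, hy, hy1, hy2⟩
    exact ⟨y, hYd j k hjk hy, le_trans (max_le_max_left n hjk) hy1, hy2⟩
  set κ : ℕ → ℕ → ℕ := fun n z => Nat.findGreatest (fun k => z ∈ E n k) (max n z) with hκ
  have hκ1 : ∀ n z, z ∈ E n n → n ≤ κ n z ∧ z ∈ E n (κ n z) := by
    intro n z hz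
    exact ⟨Nat.le_findGreatest (le_max_left _ _) hz,
      Nat.findGreatest_spec (P := fun k => z ∈ E n k) (le_max_left n z) hz⟩
  have hκ2 : ∀ n z k, z ∈ E n k → k ≤ z → k ≤ κ n z := by
    intro n z k hz hk
    exact Nat.le_findGreatest (hk.trans (le_max_right _ _)) hz
  choose σ hσ1 hσ2 hσ3 using fun (n z : ℕ) (h : z ∈ E n n) => (hκ1 n z h).2
  set Z : Set (ℕ × ℕ) := {y | ∃ n z, ∃ h : z ∈ E n n, y = σ n z h} with hZ
  refine ⟨Z, fun n => ?_, fun k => ⟨k, ?_⟩⟩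
  · filter_upwards [hEv n n] with z hz
    exact ⟨σ n z hz, ⟨n, z, hz, rfl⟩, le_trans (le_max_left _ _) (hσ2 n z hz), hσ3 n z hz⟩
  · have h1 : ∀ᶠ b in (v k : Filter ℕ), ∀ n ∈ Finset.range k,
        dn G n k b ∈ E n k ∧ k ≤ dn G n k b := by
      refine (Finset.eventually_all _).2 fun n hn => ?_
      have hnk : n ≤ k := (Finset.mem_range.1 hn).le
      exact (dn_pull hmap hnk).1 ((hEv n k).and (hnp n k))
    filter_upwards [h1] with b hb
    rintro y ⟨n, z, h, rfl⟩ hy1 hy2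
    have h2 : k ≤ κ n z := by
      by_cases hnk : n < k
      · have h3 := hb n (Finset.mem_range.2 hnk)
        have h4 : dn G n k b = z := by
          rw [← hy2]
          have := lv_lv G hnk.le hy1
          rw [this]
          exact hσ3 n z h
        rw [h4] at h3
        exact hκ2 n z k h3.1 h3.2
      · exact (not_lt.1 hnk).trans (hκ1 n z h).1
    exact hYd k _ h2 (hσ1 n z h) k le_rfl

/-! ### Deciding a function -/

open Classical in
/-- Code of a finite set of natural numbers. -/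
noncomputable def enc (S : Set ℕ) : ℕ :=
  if h : S.Finite then Encodable.encode h.toFinset else 0

/-- The set with a given code. -/
def dec (n : ℕ) : Set ℕ := match Encodable.decode (α := Finset ℕ) n with
  | some F => (F : Set ℕ)
  | none => ∅

theorem dec_enc {S : Set ℕ} (h : S.Finite) : dec (enc S) = S := by
  rw [enc, dif_pos h, dec, Encodable.encodek]
  exact h.coe_toFinset

/-- The dichotomy for functions on a positive set. -/
theorem dichotomy (hmap : ∀ n, (v (n + 1)).map (G n) = v n)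
    (hnp : ∀ n k, ∀ᶠ z in (v n : Filter ℕ), k ≤ z)
    (hfin : ∀ n m, n ≤ m → ∀ (e : ℕ → ℕ) (S : ℕ → Set ℕ),
      (∀ᶠ b in (v m : Filter ℕ), e b ∈ S (dn G n m b) ∧ (S (dn G n m b)).Finite) →
      ∃ K : ℕ → ℕ, ∀ᶠ b in (v m : Filter ℕ), e b = K (dn G n m b))
    (Y : Set (ℕ × ℕ)) (hY : Pos v G Y) (h : ℕ × ℕ → ℕ) :
    ∃ Z ⊆ Y, Pos v G Z ∧ (InjOn h Z ∨ ∃ (n : ℕ) (k : ℕ → ℕ), ∀ y ∈ Z, h y = k (lv G n y)) := by
  classical
  set V : ℕ → ℕ → Set ℕ := fun n z => h '' {y | y ∈ Y ∧ n ≤ y.1 ∧ lv G n y = z} with hV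
  have hVd : ∀ n m, n ≤ m → ∀ b, V m b ⊆ V n (dn G n m b) := by
    rintro n m hnm b _ ⟨y, ⟨hy, hy1, hy2⟩, rfl⟩
    refine ⟨y, ⟨hy, hnm.trans hy1, ?_⟩, rfl⟩
    rw [← hy2]
    exact (lv_lv G hnm hy1).symm
  by_cases hA : ∀ n, ∀ᶠ z in (v n : Filter ℕ), (V n z).Infinite
  · obtain ⟨R, hRd, hRs, hRi⟩ := exists_disjoint_refinement
      fun a => V a.unpair.1 a.unpair.2
    have h1 : ∀ n z, ∃ y, (V n z).Infinite → y ∈ Y ∧ n ≤ y.1 ∧ lv G n y = z ∧
        h y ∈ R (Nat.pair n z) := by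
      intro n z
      by_cases hi : (V n z).Infinite
      · have h2 : (R (Nat.pair n z)).Infinite := hRi _ (by rwa [Nat.unpair_pair])
        obtain ⟨r, hr⟩ := h2.nonempty
        have h3 := hRs _ hr
        rw [Nat.unpair_pair] at h3
        obtain ⟨y, ⟨hy, hy1, hy2⟩, hy3⟩ := h3
        exact ⟨y, fun _ => ⟨hy, hy1, hy2, hy3 ▸ hr⟩⟩
      · exact ⟨(0, 0), fun h => absurd h hi⟩
    choose σ hσ using h1
    refine ⟨{y | ∃ n z, (V n z).Infinite ∧ y = σ n z}, ?_, fun n => ?_, Or.inl ?_⟩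
    · rintro y ⟨n, z, hi, rfl⟩
      exact (hσ n z hi).1
    · filter_upwards [hA n] with z hz
      exact ⟨σ n z, ⟨n, z, hz, rfl⟩, (hσ n z hz).2.1, (hσ n z hz).2.2.1⟩
    · rintro _ ⟨n, z, hi, rfl⟩ _ ⟨n', z', hi', rfl⟩ heq
      have h2 : Nat.pair n z = Nat.pair n' z' := by
        by_contra hne
        refine Set.disjoint_left.1 (hRd hne) (hσ n z hi).2.2.2 ?_
        rw [heq]
        exact (hσ n' z' hi').2.2.2
      rw [Nat.pair_eq_pair] at h2
      rw [h2.1, h2.2]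
  · push Not at hA
    obtain ⟨n, hn⟩ := hA
    have h1 : ∀ m, ∃ K : ℕ → ℕ, n ≤ m → ∀ᶠ b in (v m : Filter ℕ),
        enc (V m b) = K (dn G n m b) := by
      intro m
      by_cases hnm : n ≤ m
      · obtain ⟨K, hK⟩ := hfin n m hnm (fun b => enc (V m b))
          (fun z => enc '' {A | A ⊆ V n z}) (by
            filter_upwards [(dn_pull hmap hnm).1 hn] with b hb
            exact ⟨⟨V m b, hVd n m hnm b, rfl⟩, (Set.Finite.finite_subsets hb).image enc⟩)
        exact ⟨K, fun _ => hK⟩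
      · exact ⟨fun _ => 0, fun h => absurd h hnm⟩
    choose K hK using h1
    set KS : ℕ → ℕ → Set ℕ := fun m z => dec (K m z) with hKS
    have h2 : ∀ m, n ≤ m → ∀ᶠ b in (v m : Filter ℕ), V m b = KS m (dn G n m b) := by
      intro m hm
      filter_upwards [hK m hm, (dn_pull hmap hm).1 hn] with b hb1 hb2
      simp only [hKS]
      rw [← hb1, dec_enc (hb2.subset (hVd n m hm b))]
    have h3 : ∀ m, n ≤ m → ∀ᶠ b in (v m : Filter ℕ), (V m b).Nonempty := by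
      intro m _
      filter_upwards [hY m] with b hb
      obtain ⟨y, hy, hy1, hy2⟩ := hb
      exact ⟨h y, y, ⟨hy, hy1, hy2⟩, rfl⟩
    set Q : ℕ → ℕ → Prop := fun m z => n ≤ m ∧ (KS m z).Nonempty ∧
      ∀ j, n ≤ j → j ≤ m → KS m z ⊆ KS j z with hQ
    have hQa : ∀ m, n ≤ m → ∀ᶠ z in (v n : Filter ℕ), Q m z := by
      intro m hm
      rw [dn_pull hmap hm]
      have h4 : ∀ᶠ b in (v m : Filter ℕ), ∀ j ∈ Finset.Icc n m,
          V j (dn G j m b) = KS j (dn G n j (dn G j m b)) := by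
        refine (Finset.eventually_all _).2 fun j hj => ?_
        have hj' := Finset.mem_Icc.1 hj
        exact (dn_pull hmap hj'.2).1 (h2 j hj'.1)
      filter_upwards [h4, h2 m hm, h3 m hm] with b hb1 hb2 hb3
      refine ⟨hm, hb2 ▸ hb3, fun j hj1 hj2 => ?_⟩
      have h5 := hb1 j (Finset.mem_Icc.2 ⟨hj1, hj2⟩)
      rw [dn_dn G hj1 hj2] at h5
      rw [← h5, ← hb2]
      exact hVd j m hj2 b
    set μ : ℕ → ℕ := fun z => Nat.findGreatest (fun m => Q m z) (max n z) with hμ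
    have hμ1 : ∀ z, Q n z → Q (μ z) z := fun z hz =>
      Nat.findGreatest_spec (P := fun m => Q m z) (le_max_left n z) hz
    have hμ2 : ∀ z m, Q m z → m ≤ z → m ≤ μ z := fun z m hz hm =>
      Nat.le_findGreatest (hm.trans (le_max_right _ _)) hz
    have h5 : ∀ z, ∃ k, Q n z → k ∈ KS (μ z) z := by
      intro z
      by_cases hz : Q n z
      · obtain ⟨k, hk⟩ := (hμ1 z hz).2.1
        exact ⟨k, fun _ => hk⟩
      · exact ⟨0, fun h => absurd h hz⟩
    choose k hk using h5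
    have hkm : ∀ m, n ≤ m → ∀ᶠ z in (v n : Filter ℕ), k z ∈ KS m z := by
      intro m hm
      filter_upwards [hQa m hm, hQa n le_rfl, hnp n m] with z hz1 hz2 hz3
      exact (hμ1 z hz2).2.2 m hm (hμ2 z m hz1 hz3) (hk z hz2)
    refine ⟨{y | y ∈ Y ∧ n ≤ y.1 ∧ h y = k (lv G n y)}, fun y hy => hy.1,
      pos_of_levels hmap n fun m hm => ?_, Or.inr ⟨n, k, fun y hy => hy.2.2⟩⟩
    filter_upwards [(dn_pull hmap hm).1 (hkm m hm), h2 m hm] with b hb1 hb2
    rw [← hb2] at hb1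
    obtain ⟨y, ⟨hy, hy1, hy2⟩, hy3⟩ := hb1
    refine ⟨y, ⟨hy, hm.trans hy1, ?_⟩, hy1, hy2⟩
    rw [hy3, ← hy2]
    congr 1
    exact lv_lv G hm hy1

end

/-! ### The extension -/

variable {I : Type*} [LinearOrder I]

theorem not_finTo_of_lt (T : Tower I) {u : Ultrafilter ℕ} {f : I → ℕ → ℕ}
    (hmap : ∀ i, u.map (f i) = T.u i)
    (hcoh : ∀ i j, i ≤ j → ∀ᶠ x in (u : Filter ℕ), f i x = T.g i j (f j x)) {i j : I}
    (hij : i < j) : ¬ FinTo u (f i) := by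
  rintro ⟨Z, hZ, hZf⟩
  refine T.inf i j hij ⟨f j '' (Z ∩ {x | f i x = T.g i j (f j x)}), ?_, fun z => ?_⟩
  · rw [← hmap j]
    exact Filter.image_mem_map (inter_mem hZ (hcoh i j hij.le))
  · refine ((hZf z).image (f j)).subset ?_
    rintro _ ⟨⟨x, ⟨hx1, hx2⟩, rfl⟩, hx3⟩
    refine ⟨x, ⟨hx1, ?_⟩, rfl⟩
    have h4 : f i x = T.g i j (f j x) := hx2
    rw [mem_preimage, mem_singleton_iff, h4]
    exact hx3

theorem dn_eq_g (T : Tower I) (s : ℕ → I) (hs : StrictMono s) {n m : ℕ} (h : n ≤ m) :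
    ∀ᶠ x in (T.u (s m) : Filter ℕ),
      dn (fun n => T.g (s n) (s (n + 1))) n m x = T.g (s n) (s m) x := by
  induction m, h using Nat.le_induction with
  | base =>
    filter_upwards [T.refl (s n)] with x hx
    rw [dn_self, hx]
  | succ m hm ih =>
    have h1 := (eventually_map_iff (T.map _ _ (hs.monotone (Nat.le_succ m)))).1 ih
    filter_upwards [h1, T.coh (s n) (s m) (s (m + 1)) (hs.monotone hm)
      (hs.monotone (Nat.le_succ m))] with x hx1 hx2
    rw [dn_succ _ hm, hx1, hx2]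

theorem hfin_of_tower (T : Tower I) (s : ℕ → I) (hs : StrictMono s) (n m : ℕ) (hnm : n ≤ m)
    (e : ℕ → ℕ) (S : ℕ → Set ℕ)
    (h : ∀ᶠ b in (T.u (s m) : Filter ℕ), e b ∈ S (dn (fun n => T.g (s n) (s (n + 1))) n m b) ∧
      (S (dn (fun n => T.g (s n) (s (n + 1))) n m b)).Finite) :
    ∃ K : ℕ → ℕ, ∀ᶠ b in (T.u (s m) : Filter ℕ),
      e b = K (dn (fun n => T.g (s n) (s (n + 1))) n m b) := by
  obtain ⟨i, hi, ⟨k, hk⟩, ⟨k', hk'⟩⟩ := T.cl (s m) e
  have hdn := dn_eq_g T s hs hnm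
  by_cases hin : i ≤ s n
  · refine ⟨fun z => k (T.g i (s n) z), ?_⟩
    filter_upwards [hk, hdn, T.coh i (s n) (s m) hin (hs.monotone hnm)] with b h1 h2 h3
    rw [h1, h2, h3]
  · exfalso
    push Not at hin
    refine T.inf (s n) i hin ⟨{c | c ∈ k' '' (S (T.g (s n) i c)) ∧ (S (T.g (s n) i c)).Finite},
      ?_, fun z => ?_⟩
    · have h1 : ∀ᶠ b in (T.u (s m) : Filter ℕ), T.g i (s m) b ∈
          {c | c ∈ k' '' (S (T.g (s n) i c)) ∧ (S (T.g (s n) i c)).Finite} := by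
        filter_upwards [h, hk', hdn, T.coh (s n) i (s m) hin.le hi] with b h1 h2 h3 h4
        rw [h3, h4] at h1
        exact ⟨⟨e b, h1.1, h2.symm⟩, h1.2⟩
      exact (eventually_map_iff (T.map _ _ hi)).2 h1
    · by_cases hS : (S z).Finite
      · refine (hS.image k').subset ?_
        rintro c ⟨⟨hc1, -⟩, hc2⟩
        have : T.g (s n) i c = z := hc2
        rwa [this] at hc1
      · refine Set.finite_empty.subset ?_
        rintro c ⟨⟨-, hc1⟩, hc2⟩
        have : T.g (s n) i c = z := hc2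
        rw [this] at hc1
        exact absurd hc1 hS

/-- Positive sets as a structure. -/
structure PS (v : ℕ → Ultrafilter ℕ) (G : ℕ → ℕ → ℕ) where
  /-- the set -/
  Y : Set (ℕ × ℕ)
  pos : Pos v G Y

/-- The order of positive sets. -/
@[reducible] def PS.preorder {v : ℕ → Ultrafilter ℕ} {G : ℕ → ℕ → ℕ}
    (hmap : ∀ n, (v (n + 1)).map (G n) = v n) : Preorder (PS v G) where
  le Y' Y := Y.Y ∈ lfil v G Y'.Y
  le_refl Y := lfil_self _
  le_trans _ _ _ hab hbc := lfil_mono hmap hab hbc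

/-- An ultrafilter of positive sets deciding all functions. -/
theorem exists_ultrafilter_pos {v : ℕ → Ultrafilter ℕ} {G : ℕ → ℕ → ℕ}
    (hmap : ∀ n, (v (n + 1)).map (G n) = v n)
    (hnp : ∀ n k, ∀ᶠ z in (v n : Filter ℕ), k ≤ z)
    (hfin : ∀ n m, n ≤ m → ∀ (e : ℕ → ℕ) (S : ℕ → Set ℕ),
      (∀ᶠ b in (v m : Filter ℕ), e b ∈ S (dn G n m b) ∧ (S (dn G n m b)).Finite) →
      ∃ K : ℕ → ℕ, ∀ᶠ b in (v m : Filter ℕ), e b = K (dn G n m b))
    {W : Type*} [LinearOrder W] [WellFoundedLT W] [Nonempty W] (hW : ∀ w : W, (Iio w).Countable)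
    (eF : W → (ℕ → ℕ)) (heF : Function.Surjective eF) :
    ∃ U : Ultrafilter (ℕ × ℕ), (∀ n, {y : ℕ × ℕ | n ≤ y.1} ∈ U) ∧
      (∀ n, ∀ B ∈ v n, {y : ℕ × ℕ | lv G n y ∈ B} ∈ U) ∧
      ∀ h : ℕ → ℕ, ∃ Y ∈ U, InjOn (fun y : ℕ × ℕ => h (Nat.pair y.1 y.2)) Y ∨
        ∃ (n : ℕ) (k : ℕ → ℕ), ∀ y ∈ Y, h (Nat.pair y.1 y.2) = k (lv G n y) := by
  classical
  let _ := PS.preorder hmap
  set D : W → Set (PS v G) := fun w => {Y |
    InjOn (fun y : ℕ × ℕ => eF w (Nat.pair y.1 y.2)) Y.Y ∨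
      ∃ (n : ℕ) (k : ℕ → ℕ), ∀ y ∈ Y.Y, eF w (Nat.pair y.1 y.2) = k (lv G n y)} with hD
  have hcl : ∀ c : ℕ → PS v G, Antitone c → ∃ q, ∀ n, q ≤ c n := by
    intro c hc
    obtain ⟨Y, hY, hY2⟩ := exists_lower_pos hmap hnp (fun n => (c n).Y) (fun n => (c n).pos)
      (fun j k hjk => hc hjk)
    exact ⟨⟨Y, hY⟩, hY2⟩
  have hDd : ∀ w p, ∃ q ≤ p, q ∈ D w := by
    intro w p
    obtain ⟨Z, hZ, hZp, hZd⟩ := dichotomy hmap hnp hfin p.Y p.pos
      (fun y : ℕ × ℕ => eF w (Nat.pair y.1 y.2))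
    exact ⟨⟨Z, hZp⟩, lfil_sup _ _ (lfil_self Z) _ hZ, hZd⟩
  have hpu : Pos v G univ := fun n => Eventually.of_forall fun z =>
    ⟨(n, z), mem_univ _, le_rfl, dn_self G n z⟩
  obtain ⟨c', hc1, hc2, -⟩ := exists_chains hcl hW D hDd (fun p _ => p) (fun p _ => le_rfl)
    ⟨univ, hpu⟩
  set c := c' fun _ => false with hc
  have hanti : ∀ w w', w ≤ w' → (c w).Y ∈ lfil v G (c w').Y := fun w w' h => hc1 _ h
  have hdec : ∀ A : Set (ℕ × ℕ), ∃ w, A ∈ lfil v G (c w).Y ∨ Aᶜ ∈ lfil v G (c w).Y := by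
    intro A
    obtain ⟨w, hw⟩ := heF fun x => if Nat.unpair x ∈ A then 1 else 0
    have hval : ∀ y : ℕ × ℕ, eF w (Nat.pair y.1 y.2) = if y ∈ A then 1 else 0 := by
      intro y
      rw [hw]
      simp only [Nat.unpair_pair]
    refine ⟨w, ?_⟩
    rcases hc2 (fun _ => false) w with h | ⟨n, k, hk⟩
    · exfalso
      have hfinite : (c w).Y.Finite := by
        refine Set.Finite.of_finite_image ((Set.finite_Iio 2).subset ?_) h
        rintro _ ⟨y, -, rfl⟩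
        rw [mem_Iio]
        dsimp only
        rw [hval]
        split_ifs <;> omega
      obtain ⟨N, hN⟩ := (hfinite.image (lv G 0)).bddAbove
      obtain ⟨z, ⟨y, hy, -, hy2⟩, hz2⟩ := ((c w).pos 0 |>.and (hnp 0 (N + 1))).exists
      have := hN ⟨y, hy, hy2⟩
      omega
    · by_cases h1 : ∀ᶠ z in (v n : Filter ℕ), k z = 1
      · left
        refine ⟨n, h1.mono fun z hz y hy _ hyz => ?_⟩
        have h2 := hk y hy
        rw [hval, hyz, hz] at h2
        by_contra hyA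
        simp [hyA] at h2
      · right
        refine ⟨n, (Ultrafilter.eventually_not.2 h1).mono fun z hz y hy _ hyz hyA => ?_⟩
        have h2 := hk y hy
        rw [hval, hyz, if_pos hyA] at h2
        exact hz h2.symm
  obtain ⟨U, hU⟩ := exists_ultrafilter (fun w => lfil v G (c w).Y)
    (fun w w' h => lfil_mono hmap (hanti w w' h)) (fun w => lfil_univ _)
    (fun w A hA B hB => lfil_sup _ A hA B hB) (fun w A hA B hB => lfil_inter hmap _ A hA B hB)
    (fun w => lfil_empty (c w).pos) hdec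
  refine ⟨U, fun n => (hU _).2 ⟨Classical.arbitrary W, level_mem_lfil n _⟩,
    fun n B hB => (hU _).2 ⟨Classical.arbitrary W, lv_mem_lfil n _ hB⟩, fun h => ?_⟩
  obtain ⟨w, hw⟩ := heF h
  refine ⟨(c w).Y, (hU _).2 ⟨w, lfil_self _⟩, ?_⟩
  rw [← hw]
  exact hc2 (fun _ => false) w

/-- Extensions of towers of countable cofinality. -/
theorem Tower.exists_ext_omega (T : Tower I) {W : Type*} [LinearOrder W]
    [WellFoundedLT W] [Nonempty W] (hW : ∀ w : W, (Iio w).Countable)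
    (s : ℕ → I) (hs : StrictMono s) (hcof : ∀ i, ∃ n, i ≤ s n)
    (hnp : ∀ n k, ∀ᶠ z in (T.u (s n) : Filter ℕ), k ≤ z)
    (eF : W → (ℕ → ℕ)) (heF : Function.Surjective eF) :
    ∃ u f, IsExt T u f := by
  set v : ℕ → Ultrafilter ℕ := fun n => T.u (s n) with hv
  set G : ℕ → ℕ → ℕ := fun n => T.g (s n) (s (n + 1)) with hG
  have hmap : ∀ n, (v (n + 1)).map (G n) = v n := fun n =>
    T.map _ _ (hs.monotone (Nat.le_succ n))
  obtain ⟨U, hU1, hU2, hU3⟩ := exists_ultrafilter_pos hmap hnp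
    (fun n m hnm e S h => hfin_of_tower T s hs n m hnm e S h) hW eF heF
  set V : Ultrafilter ℕ := U.map fun y => Nat.pair y.1 y.2 with hV
  have hVU : ∀ p : ℕ → Prop, (∀ᶠ x in (V : Filter ℕ), p x) ↔
      ∀ᶠ y in (U : Filter (ℕ × ℕ)), p (Nat.pair y.1 y.2) := fun p => by
    rw [hV, Ultrafilter.coe_map, eventually_map]
  set π : ℕ → ℕ → ℕ := fun n x => lv G n (Nat.unpair x) with hπ
  have hπp : ∀ n (y : ℕ × ℕ), π n (Nat.pair y.1 y.2) = lv G n y := fun n y => by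
    simp only [hπ, Nat.unpair_pair]
  have hπmap : ∀ n, V.map (π n) = v n := by
    intro n
    rw [← Ultrafilter.coe_le_coe]
    intro B hB
    rw [Ultrafilter.coe_map, mem_map]
    refine (hVU _).2 ?_
    filter_upwards [hU2 n B hB] with y hy
    rw [hπp]
    exact hy
  choose nn hnn using hcof
  set f : I → ℕ → ℕ := fun i x => T.g i (s (nn i)) (π (nn i) x) with hf
  have hind : ∀ (i : I) (n n' : ℕ), i ≤ s n → i ≤ s n' →
      ∀ᶠ x in (V : Filter ℕ), T.g i (s n) (π n x) = T.g i (s n') (π n' x) := by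
    have key : ∀ (i : I) (n N : ℕ), i ≤ s n → n ≤ N →
        ∀ᶠ x in (V : Filter ℕ), T.g i (s n) (π n x) = T.g i (s N) (π N x) := by
      intro i n N hi hnN
      have h1 := (eventually_map_iff (hπmap N)).1 ((dn_eq_g T s hs hnN).and
        (T.coh i (s n) (s N) hi (hs.monotone hnN)))
      have h2 : ∀ᶠ x in (V : Filter ℕ), N ≤ (Nat.unpair x).1 := by
        refine (hVU _).2 ?_
        filter_upwards [hU1 N] with y hy
        rw [Nat.unpair_pair]
        exact hy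
      filter_upwards [h1, h2] with x hx1 hx2
      have h3 : π n x = dn G n N (π N x) := (lv_lv G hnN hx2).symm
      rw [h3, hx1.2, hx1.1]
    intro i n n' hn hn'
    filter_upwards [key i n (max n n') hn (le_max_left _ _),
      key i n' (max n n') hn' (le_max_right _ _)] with x h1 h2
    rw [h1, h2]
  have hfmap : ∀ i, V.map (f i) = T.u i := by
    intro i
    have h1 : V.map (f i) = (V.map (π (nn i))).map (T.g i (s (nn i))) := by
      rw [Ultrafilter.map_map]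
      rfl
    rw [h1, hπmap, T.map _ _ (hnn i)]
  have hfcoh : ∀ i j, i ≤ j → ∀ᶠ x in (V : Filter ℕ), f i x = T.g i j (f j x) := by
    intro i j hij
    have h1 := hind i (nn i) (nn j) (hnn i) (hij.trans (hnn j))
    have h2 := (eventually_map_iff (hπmap (nn j))).1 (T.coh i j _ hij (hnn j))
    filter_upwards [h1, h2] with x hx1 hx2
    simp only [hf]
    rw [hx1, hx2]
  refine ⟨V, f, hfmap, hfcoh, ?_, ?_⟩
  · intro h
    obtain ⟨Y, hY, h1 | ⟨n, k, hk⟩⟩ := hU3 h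
    · left
      refine ⟨{x | Nat.unpair x ∈ Y}, ?_, ?_⟩
      · refine (hVU _).2 ?_
        filter_upwards [hY] with y hy
        rw [Nat.unpair_pair]
        exact hy
      · intro x hx x' hx' hxx
        have h2 := h1 hx hx' (by simpa only [Nat.pair_unpair] using hxx)
        rw [← Nat.pair_unpair x, ← Nat.pair_unpair x', h2]
    · right
      obtain ⟨i, hi, hi2⟩ := T.cl (s n) k
      refine ⟨i, ?_⟩
      have h2 : ∀ᶠ x in (V : Filter ℕ), h x = k (π n x) := by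
        refine (hVU _).2 ?_
        filter_upwards [hY] with y hy
        rw [hπp]
        exact hk y hy
      exact ((Eqv.of_eventuallyEq h2).trans (Eqv.comp (hπmap n) hi2)).trans
        (Eqv.of_eventuallyEq (hind i n (nn i) hi (hnn i)))
  · intro i
    have hlt : i < s (nn i + 1) := lt_of_le_of_lt (hnn i) (hs (Nat.lt_succ_self _))
    exact not_finTo_of_lt T hfmap hfcoh hlt

end Pool.Agent.RKTree
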