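import Pool.Agent.RKTree.Top
import Pool.Agent.RKTree.Omega

/-!
# Extending towers indexed by ordinals below `ω₂`
-/

set_option autoImplicit false

open Set Filter Cardinal Ordinal

namespace Pool.Agent.RKTree

/-- The set of countable ordinals. -/
abbrev W1 : Type := (ω₁ : Ordinal.{0}).ToType

theorem mk_W1 : #W1 = ℵ₁ := by
  rw [mk_toType, card_omega]

instance : Nonempty W1 := by
  rw [← mk_ne_zero_iff, mk_W1]
  exact (aleph_pos 1).ne'

theorem countable_Iio_W1 (a : W1) : (Set.Iio a).Countable := by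
  have h : #(Set.Iio a) < #W1 := by
    apply mk_Iio_lt
    rw [mk_W1, ord_aleph, type_toType]
  rw [mk_W1] at h
  rw [← le_aleph0_iff_set_countable]
  rwa [← Order.lt_succ_iff, succ_aleph0]

theorem exists_surj_fun (hCH : (𝔠 : Cardinal.{0}) = ℵ₁) : ∃ e : W1 → (ℕ → ℕ), Function.Surjective e := by
  have h : #(ℕ → ℕ) ≤ #W1 := by
    rw [mk_W1, ← hCH]
    simp
  obtain ⟨f⟩ := (Cardinal.le_def _ _).1 h
  exact ⟨Function.invFun f, Function.invFun_surjective f.injective⟩

theorem exists_surj_Iio {α : Ordinal.{0}} (h0 : α ≠ 0) (hα : α < ω_ 2) :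
    ∃ e : W1 → Iio α, Function.Surjective e := by
  have h1 : α.card < ℵ_ 2 := by
    rw [← lt_ord, ord_aleph]
    exact hα
  have h2 : α.card ≤ ℵ₁ := by
    have h3 : (ℵ_ 2 : Cardinal.{0}) = Order.succ ℵ₁ := by
      rw [succ_aleph]
      norm_num
    rw [h3] at h1
    exact Order.lt_succ_iff.1 h1
  have h3 : Nonempty (Iio α ↪ W1) := by
    rw [← lift_mk_le', Cardinal.mk_Iio_ordinal, mk_W1, Cardinal.lift_uzero]
    exact Cardinal.lift_le.2 h2
  obtain ⟨f⟩ := h3
  have : Nonempty (Iio α) := ⟨⟨0, pos_iff_ne_zero.2 h0⟩⟩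
  exact ⟨Function.invFun f, Function.invFun_surjective f.injective⟩

/-- Data at a node: an ultrafilter and the maps to the earlier ultrafilters. -/
abbrev Dt := Ultrafilter ℕ × (Ordinal.{0} → ℕ → ℕ)

/-- The family `d`, restricted to the ordinals below `α`, is a tower. -/
structure Tow (α : Ordinal.{0}) (d : Ordinal.{0} → Dt) : Prop where
  map : ∀ i j, i ≤ j → j < α → (d j).1.map ((d j).2 i) = (d i).1
  coh : ∀ i j k, i ≤ j → j ≤ k → k < α →
    ∀ᶠ x in ((d k).1 : Filter ℕ), (d k).2 i x = (d j).2 i ((d k).2 j x)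
  refl : ∀ i < α, ∀ᶠ x in ((d i).1 : Filter ℕ), (d i).2 i x = x
  cl : ∀ j < α, ∀ h : ℕ → ℕ, ∃ i ≤ j, Eqv (d j).1 h ((d j).2 i)
  inf : ∀ i j, i < j → j < α → ¬ FinTo (d j).1 ((d j).2 i)
  str : ∀ i j, i < j → j < α → ¬ RK (d j).1 (d i).1

/-- The tower on the type of ordinals below `α`. -/
def Tow.toTower {α : Ordinal.{0}} {d : Ordinal.{0} → Dt} (h : Tow α d) : Tower (Iio α) where
  u i := (d i).1
  g i j := (d j).2 i
  map i j hij := h.map i j hij j.2
  coh i j k hij hjk := h.coh i j k hij hjk k.2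
  refl i := h.refl i i.2
  cl j f := by
    obtain ⟨i, hi, h2⟩ := h.cl j j.2 f
    exact ⟨⟨i, lt_of_le_of_lt hi j.2⟩, hi, h2⟩
  inf i j hij := h.inf i j hij j.2

theorem Tow.congr {α : Ordinal.{0}} {d d' : Ordinal.{0} → Dt} (h : Tow α d)
    (hd : ∀ β < α, d β = d' β) : Tow α d' where
  map i j hij hj := by
    rw [← hd j hj, ← hd i (hij.trans_lt hj)]
    exact h.map i j hij hj
  coh i j k hij hjk hk := by
    rw [← hd k hk, ← hd j (hjk.trans_lt hk)]
    exact h.coh i j k hij hjk hk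
  refl i hi := by
    rw [← hd i hi]
    exact h.refl i hi
  cl j hj f := by
    rw [← hd j hj]
    exact h.cl j hj f
  inf i j hij hj := by
    rw [← hd j hj]
    exact h.inf i j hij hj
  str i j hij hj := by
    rw [← hd j hj, ← hd i (hij.trans hj)]
    exact h.str i j hij hj

theorem Tow.of_forall {α : Ordinal.{0}} {d : Ordinal.{0} → Dt}
    (h : ∀ β < α, Tow (Order.succ β) d) : Tow α d where
  map i j hij hj := (h j hj).map i j hij (Order.lt_succ j)
  coh i j k hij hjk hk := (h k hk).coh i j k hij hjk (Order.lt_succ k)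
  refl i hi := (h i hi).refl i (Order.lt_succ i)
  cl j hj := (h j hj).cl j (Order.lt_succ j)
  inf i j hij hj := (h j hj).inf i j hij (Order.lt_succ j)
  str i j hij hj := (h j hj).str i j hij (Order.lt_succ j)

open Classical in
/-- The data at `α` given by an extension of the tower. -/
noncomputable def mkDt {α : Ordinal.{0}} (v : Ultrafilter ℕ) (f : Iio α → ℕ → ℕ) : Dt :=
  (v, fun i => if h : i < α then f ⟨i, h⟩ else id)

theorem Tow.extend {α : Ordinal.{0}} {d : Ordinal.{0} → Dt} (h : Tow α d)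
    {v : Ultrafilter ℕ} {f : Iio α → ℕ → ℕ} (hv : IsExt h.toTower v f)
    (hstr : ∀ i < α, ¬ RK v (d i).1) :
    Tow (Order.succ α) (Function.update d α (mkDt v f)) := by
  have hself : Function.update d α (mkDt v f) α = mkDt v f := Function.update_self _ _ _
  have hne : ∀ β < α, Function.update d α (mkDt v f) β = d β := fun β hβ =>
    Function.update_of_ne hβ.ne _ _
  have hf : ∀ i (hi : i < α), (mkDt v f).2 i = f ⟨i, hi⟩ := fun i hi => by
    simp only [mkDt, dif_pos hi]
  have hfα : (mkDt v f).2 α = id := by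
    simp only [mkDt, lt_irrefl, dite_false]
  refine ⟨?_, ?_, ?_, ?_, ?_, ?_⟩
  · intro i j hij hj
    rcases (Order.lt_succ_iff.1 hj).lt_or_eq with hj' | rfl
    · rw [hne j hj', hne i (hij.trans_lt hj')]
      exact h.map i j hij hj'
    · rw [hself]
      rcases hij.lt_or_eq with hi | rfl
      · rw [hne i hi, hf i hi]
        exact hv.map ⟨i, hi⟩
      · rw [hself, hfα, Ultrafilter.map_id]
  · intro i j k hij hjk hk
    rcases (Order.lt_succ_iff.1 hk).lt_or_eq with hk' | rfl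
    · rw [hne k hk', hne j (hjk.trans_lt hk')]
      exact h.coh i j k hij hjk hk'
    · rw [hself]
      rcases hjk.lt_or_eq with hj | rfl
      · rw [hne j hj, hf j hj, hf i (hij.trans_lt hj)]
        exact hv.coh ⟨i, hij.trans_lt hj⟩ ⟨j, hj⟩ hij
      · rw [hself, hfα]
        exact Eventually.of_forall fun _ => rfl
  · intro i hi
    rcases (Order.lt_succ_iff.1 hi).lt_or_eq with hi' | rfl
    · rw [hne i hi']
      exact h.refl i hi'
    · rw [hself, hfα]
      exact Eventually.of_forall fun _ => rfl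
  · intro j hj g
    rcases (Order.lt_succ_iff.1 hj).lt_or_eq with hj' | rfl
    · rw [hne j hj']
      exact h.cl j hj' g
    · rw [hself]
      rcases hv.cl g with ⟨B, hB, hB2⟩ | ⟨i, hi⟩
      · refine ⟨j, le_rfl, ?_⟩
        rw [hfα]
        exact eqv_id_of_injOn hB hB2
      · refine ⟨i, i.2.le, ?_⟩
        rw [hf i i.2]
        exact hi
  · intro i j hij hj
    rcases (Order.lt_succ_iff.1 hj).lt_or_eq with hj' | rfl
    · rw [hne j hj']
      exact h.inf i j hij hj'
    · rw [hself, hf i hij]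
      exact hv.inf ⟨i, hij⟩
  · intro i j hij hj
    rcases (Order.lt_succ_iff.1 hj).lt_or_eq with hj' | rfl
    · rw [hne j hj', hne i (hij.trans hj')]
      exact h.str i j hij hj'
    · rw [hself, hne i hij]
      exact hstr i hij

/-- Height one. -/
theorem tow_one (d : Ordinal.{0} → Dt) :
    Tow (Order.succ 0) (Function.update d 0 (pure 0, fun _ => id)) := by
  have h0 : ∀ i, i < Order.succ (0 : Ordinal.{0}) → i = 0 := fun i hi => by
    have := Order.lt_succ_iff.1 hi
    simpa using this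
  have hself : Function.update d 0 (pure 0, fun _ => id) 0 = (pure 0, fun _ => id) :=
    Function.update_self _ _ _
  refine ⟨?_, ?_, ?_, ?_, ?_, ?_⟩
  · intro i j hij hj
    obtain rfl := h0 j hj
    obtain rfl : i = 0 := by simpa using hij
    rw [hself, Ultrafilter.map_id]
  · intro i j k hij hjk hk
    obtain rfl := h0 k hk
    obtain rfl : j = 0 := by simpa using hjk
    rw [hself]
    exact Eventually.of_forall fun _ => rfl
  · intro i hi
    obtain rfl := h0 i hi
    rw [hself]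
    exact Eventually.of_forall fun _ => rfl
  · intro j hj g
    obtain rfl := h0 j hj
    rw [hself]
    refine ⟨0, le_rfl, eqv_id_of_injOn (B := {0}) ?_ (injOn_singleton _ _)⟩
    exact Ultrafilter.mem_pure.2 rfl
  · intro i j hij hj
    obtain rfl := h0 j hj
    exact absurd hij (by simp)
  · intro i j hij hj
    obtain rfl := h0 j hj
    exact absurd hij (by simp)

/-- Limit steps. -/
theorem Tow.exists_limit (hCH : (𝔠 : Cardinal.{0}) = ℵ₁) {α : Ordinal.{0}} (hlim : Order.IsSuccLimit α)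
    (hα : α < ω_ 2) {d : Ordinal.{0} → Dt} (h : Tow α d) :
    ∃ e : Dt, Tow (Order.succ α) (Function.update d α e) := by
  obtain ⟨eF, heF⟩ := exists_surj_fun hCH
  have h0 : α ≠ 0 := by
    rintro rfl
    exact hlim.not_isMin (isMin_iff_forall_not_lt.2 fun b => by simp)
  have h00 : 0 < α := pos_iff_ne_zero.2 h0
  have : Nonempty (Iio α) := ⟨⟨0, h00⟩⟩
  have hext : ∃ v f, IsExt h.toTower v f := by
    by_cases hb : ∀ c : ℕ → Iio α, ∃ j, ∀ n, c n ≤ j
    · obtain ⟨eI, heI⟩ := exists_surj_Iio h0 hα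
      obtain ⟨v, -, hv⟩ := h.toTower.exists_ext_top countable_Iio_W1 hb eI heI eF heF
      obtain ⟨f, hf⟩ := hv fun _ => false
      exact ⟨_, f, hf⟩
    · push Not at hb
      obtain ⟨c, hc⟩ := hb
      -- a strictly increasing cofinal sequence
      let s : ℕ → Iio α := fun n => Nat.rec
        (max ⟨Order.succ 0, hlim.succ_lt h00⟩ (c 0))
        (fun n x => max ⟨Order.succ x.1, hlim.succ_lt x.2⟩ (c (n + 1))) n
      have hs0 : ⟨Order.succ 0, hlim.succ_lt h00⟩ ≤ s 0 := le_max_left _ _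
      have hs1 : ∀ n, s n < s (n + 1) := fun n => by
        refine lt_of_lt_of_le ?_ (le_max_left _ _)
        exact Order.lt_succ (s n).1
      have hsm : StrictMono s := strictMono_nat_of_lt_succ hs1
      have hcs : ∀ n, c n ≤ s n := fun n => by
        cases n with
        | zero => exact le_max_right _ _
        | succ n => exact le_max_right _ _
      refine h.toTower.exists_ext_omega countable_Iio_W1 s hsm (fun i => ?_) (fun n k => ?_)
        eF heF
      · obtain ⟨n, hn⟩ := hc i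
        exact ⟨n, hn.le.trans (hcs n)⟩
      · by_contra hcon
        have h2 : ∀ᶠ z in (h.toTower.u (s n) : Filter ℕ), ¬ k ≤ z :=
          Ultrafilter.eventually_not.2 hcon
        have h3 : (0 : Ordinal.{0}) < (s n).1 := by
          have h4 : s 0 ≤ s n := hsm.monotone (Nat.zero_le n)
          refine lt_of_lt_of_le (Order.lt_succ 0) ?_
          exact le_trans hs0 h4
        refine h.inf 0 (s n).1 h3 (s n).2 ⟨{z | ¬ k ≤ z}, h2, fun z => ?_⟩
        refine (Set.finite_Iio k).subset ?_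
        rintro x ⟨hx, -⟩
        exact not_le.1 hx
  obtain ⟨v, f, hv⟩ := hext
  refine ⟨mkDt v f, h.extend hv fun i hi hRK => ?_⟩
  have hi' : Order.succ i < α := hlim.succ_lt hi
  have h1 : RK (d (Order.succ i)).1 v := ⟨f ⟨_, hi'⟩, (hv.map ⟨_, hi'⟩).symm⟩
  exact h.str i (Order.succ i) (Order.lt_succ i) hi' (h1.trans hRK)

/-- The number of ultrafilters reducible to a given one. -/
theorem mk_RK_le (u : Ultrafilter ℕ) : #{v : Ultrafilter ℕ | RK v u} ≤ 𝔠 := by
  have h1 : {v : Ultrafilter ℕ | RK v u} = range fun f : ℕ → ℕ => u.map f := by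
    ext v
    constructor
    · rintro ⟨f, hf⟩
      exact ⟨f, hf.symm⟩
    · rintro ⟨f, hf⟩
      exact ⟨f, hf.symm⟩
  rw [h1]
  refine mk_range_le.trans ?_
  simp

/-- In an injective family of `2 ^ 𝔠` ultrafilters there are `2 ^ 𝔠` pairwise non-isomorphic
ones that are not reducible to a given one. -/
theorem exists_nonisomorphic {B K : Type} (v : B → Ultrafilter ℕ) (hv : Function.Injective v)
    (hB : #B = 2 ^ (𝔠 : Cardinal.{0})) (hK : #K = 2 ^ (𝔠 : Cardinal.{0})) (u : Ultrafilter ℕ) :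
    ∃ e : K → B, (∀ x, ¬ RK (v (e x)) u) ∧
      ∀ x y, x ≠ y → ¬ (RK (v (e x)) (v (e y)) ∧ RK (v (e y)) (v (e x))) := by
  have h𝔠 : (ℵ₀ : Cardinal.{0}) ≤ 𝔠 := aleph0_le_continuum
  have h2c : (𝔠 : Cardinal.{0}) < 2 ^ (𝔠 : Cardinal.{0}) := cantor _
  -- the remaining elements
  set N : Set B := {b | ¬ RK (v b) u} with hN
  have hNc : #(Nᶜ : Set B) ≤ 𝔠 := by
    have h1 : #(v '' (Nᶜ : Set B)) = #(Nᶜ : Set B) := mk_image_eq hv
    rw [← h1]
    refine (mk_le_mk_of_subset ?_).trans (mk_RK_le u)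
    rintro _ ⟨b, hb, rfl⟩
    by_contra hcon
    exact hb hcon
  have hN2 : 2 ^ (𝔠 : Cardinal.{0}) ≤ #N := by
    by_contra hcon
    push Not at hcon
    have h1 : #N + #(Nᶜ : Set B) = #B := mk_sum_compl N
    have h2 : #N + #(Nᶜ : Set B) < 2 ^ (𝔠 : Cardinal.{0}) :=
      add_lt_of_lt (h𝔠.trans h2c.le) hcon (hNc.trans_lt h2c)
    rw [h1, hB] at h2
    exact lt_irrefl _ h2
  let S : Setoid N :=
    { r := fun a b => RK (v a) (v b) ∧ RK (v b) (v a)
      iseqv := ⟨fun a => ⟨RK.refl _, RK.refl _⟩, fun h => ⟨h.2, h.1⟩,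
        fun h1 h2 => ⟨h1.1.trans h2.1, h2.2.trans h1.2⟩⟩ }
  have hQ : #N ≤ #(Quotient S) * 𝔠 := by
    refine mk_le_mk_mul_of_mk_preimage_le (Quotient.mk S) fun q => ?_
    obtain ⟨a, rfl⟩ := Quotient.exists_rep q
    have h1 : #(((fun b : N => v b) '' ((Quotient.mk S) ⁻¹' {Quotient.mk S a}) : Set _)) =
        #((Quotient.mk S) ⁻¹' {Quotient.mk S a} : Set N) :=
      mk_image_eq (hv.comp Subtype.val_injective)
    rw [← h1]
    refine (mk_le_mk_of_subset ?_).trans (mk_RK_le (v a))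
    rintro _ ⟨b, hb, rfl⟩
    have h2 : S.r b a := Quotient.exact hb
    exact h2.1
  have hQ2 : #K ≤ #(Quotient S) := by
    rw [hK]
    by_contra hcon
    push Not at hcon
    have h2 : #(Quotient S) * 𝔠 < 2 ^ (𝔠 : Cardinal.{0}) :=
      mul_lt_of_lt (h𝔠.trans h2c.le) hcon h2c
    exact absurd (hN2.trans hQ) (not_le.2 h2)
  obtain ⟨ι⟩ := (Cardinal.le_def _ _).1 hQ2
  refine ⟨fun x => ((ι x).out : N), fun x => ((ι x).out).2, fun x y hxy h => hxy ?_⟩
  apply ι.injective
  rw [← Quotient.out_eq (ι x), ← Quotient.out_eq (ι y)]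
  exact Quotient.sound h

/-- Successor steps. -/
theorem Tow.exists_succ (hCH : (𝔠 : Cardinal.{0}) = ℵ₁) {K : Type}
    (hK : #K = 2 ^ (𝔠 : Cardinal.{0})) {β : Ordinal.{0}}
    (hβ : Order.succ β < ω_ 2) {d : Ordinal.{0} → Dt} (h : Tow (Order.succ β) d) :
    ∃ e : K → Dt, (∀ x, Tow (Order.succ (Order.succ β))
      (Function.update d (Order.succ β) (e x))) ∧
      ∀ x y, x ≠ y → ¬ (RK (e x).1 (e y).1 ∧ RK (e y).1 (e x).1) := by
  obtain ⟨eF, heF⟩ := exists_surj_fun hCH
  have h0 : Order.succ β ≠ 0 := (Order.bot_lt_succ β).ne'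
  have : Nonempty (Iio (Order.succ β)) := ⟨⟨β, Order.lt_succ β⟩⟩
  obtain ⟨eI, heI⟩ := exists_surj_Iio h0 hβ
  have hb : ∀ c : ℕ → Iio (Order.succ β), ∃ j, ∀ n, c n ≤ j := fun c =>
    ⟨⟨β, Order.lt_succ β⟩, fun n => show (c n).1 ≤ β from Order.lt_succ_iff.1 (c n).2⟩
  obtain ⟨v, hv, hv2⟩ := h.toTower.exists_ext_top countable_Iio_W1 hb eI heI eF heF
  have hB : #(W1 → Bool) = 2 ^ (𝔠 : Cardinal.{0}) := by
    rw [hCH, ← mk_W1]
    simp
  obtain ⟨e, he1, he2⟩ := exists_nonisomorphic v hv hB hK (d β).1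
  choose f hf using hv2
  refine ⟨fun x => mkDt (v (e x)) (f (e x)), fun x => h.extend (hf (e x)) fun i hi hRK => ?_, he2⟩
  refine he1 x (hRK.trans ?_)
  exact ⟨(d β).2 i, (h.map i β (Order.lt_succ_iff.1 hi) (Order.lt_succ β)).symm⟩

end Pool.Agent.RKTree
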