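import Mathlib

/-!
# Descending chains of length `ω₁` in `σ`-closed preorders, and two facts on infinite sets
-/

set_option autoImplicit false

open Set Filter

namespace Pool.Agent.RKTree

section chain

variable {P : Type*} [Preorder P] {W : Type*} [LinearOrder W] [WellFoundedLT W]

open Classical in
/-- A lower bound of a set, if there is one. -/
noncomputable def lb (p0 : P) (S : Set P) : P :=
  if h : ∃ q, ∀ p ∈ S, q ≤ p then h.choose else p0

theorem lb_spec (p0 : P) (S : Set P) (h : ∃ q, ∀ p ∈ S, q ≤ p) : ∀ p ∈ S, lb p0 S ≤ p := by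
  rw [lb, dif_pos h]
  exact h.choose_spec


omit [WellFoundedLT W] in
theorem exists_lower_countable (hcl : ∀ c : ℕ → P, Antitone c → ∃ q, ∀ n, q ≤ c n)
    (S : Set W) (hS : S.Countable) (hSne : S.Nonempty) (c : W → P)
    (hc : ∀ v ∈ S, ∀ v' ∈ S, v ≤ v' → c v' ≤ c v) : ∃ q, ∀ v ∈ S, q ≤ c v := by
  obtain ⟨e, he⟩ := hS.exists_eq_range hSne
  have hmem : ∀ n, partialSups e n ∈ S := by
    intro n
    induction n with
    | zero => rw [partialSups_zero, he]; exact mem_range_self 0
    | succ n ih =>
      have h1 : partialSups e (n + 1) = partialSups e n ⊔ e (n + 1) := partialSups_add_one e n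
      rw [h1]
      rcases le_total (partialSups e n) (e (n + 1)) with h | h
      · rw [sup_eq_right.2 h, he]; exact mem_range_self _
      · rw [sup_eq_left.2 h]; exact ih
  obtain ⟨q, hq⟩ := hcl (fun n => c (partialSups e n)) (fun n m h =>
    hc _ (hmem n) _ (hmem m) ((partialSups e).monotone h))
  refine ⟨q, fun v hv => ?_⟩
  rw [he] at hv
  obtain ⟨n, rfl⟩ := hv
  exact (hq n).trans (hc _ (he ▸ mem_range_self n) _ (hmem n) (le_partialSups e n))

variable (p0 : P) (ext : W → P → P) (σ : P → Bool → P)

/-- The branching descending chain. -/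
noncomputable def chain (b : W → Bool) : W → P :=
  WellFoundedLT.fix (motive := fun _ => P) fun w prev =>
    ext w (σ (lb p0 (insert p0 {p | ∃ (v : W) (h : v < w), p = prev v h})) (b w))

/-- The set of earlier values. -/
def prevs (b : W → Bool) (w : W) : Set P := insert p0 {p | ∃ v < w, p = chain p0 ext σ b v}

theorem chain_eq (b : W → Bool) (w : W) :
    chain p0 ext σ b w = ext w (σ (lb p0 (prevs p0 ext σ b w)) (b w)) := by
  rw [chain, WellFoundedLT.fix_eq]
  congr 3
  ext p
  simp only [prevs, chain, mem_insert_iff, mem_setOf_eq, exists_prop]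

theorem chain_spec (hcl : ∀ c : ℕ → P, Antitone c → ∃ q, ∀ n, q ≤ c n)
    (hW : ∀ w : W, (Iio w).Countable) (hext : ∀ w p, ext w p ≤ p) (hσ : ∀ p b, σ p b ≤ p)
    (b : W → Bool) (w : W) :
    (∀ p ∈ prevs p0 ext σ b w, lb p0 (prevs p0 ext σ b w) ≤ p) := by
  induction w using WellFoundedLT.induction with
  | ind w ih =>
    have hle : ∀ v < w, ∀ p ∈ prevs p0 ext σ b v, chain p0 ext σ b v ≤ p := by
      intro v hv p hp
      rw [chain_eq]
      exact ((hext _ _).trans (hσ _ _)).trans (ih v hv p hp)
    have hchain : ∀ v < w, ∀ v' < w, v ≤ v' → chain p0 ext σ b v' ≤ chain p0 ext σ b v := by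
      intro v hv v' hv' h
      rcases h.lt_or_eq with h | rfl
      · exact hle v' hv' _ (Or.inr ⟨v, h, rfl⟩)
      · exact le_rfl
    refine lb_spec _ _ ?_
    rcases (Iio w).eq_empty_or_nonempty with hempty | hne
    · refine ⟨p0, ?_⟩
      rintro p (rfl | ⟨v, hv, -⟩)
      · exact le_rfl
      · have : v ∈ Iio w := hv
        rw [hempty] at this
        exact absurd this (notMem_empty v)
    · obtain ⟨q, hq⟩ := exists_lower_countable hcl (Iio w) (hW w) hne (chain p0 ext σ b)
        (fun v hv v' hv' h => hchain v hv v' hv' h)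
      refine ⟨q, ?_⟩
      rintro p (rfl | ⟨v, hv, rfl⟩)
      · obtain ⟨v, hv⟩ := hne
        exact (hq v hv).trans (hle v hv p (Or.inl rfl))
      · exact hq v hv

theorem prevs_congr (b b' : W → Bool) (w : W) (h : ∀ v < w, b v = b' v) :
    prevs p0 ext σ b w = prevs p0 ext σ b' w := by
  have key : ∀ v ≤ w, (∀ x < v, chain p0 ext σ b x = chain p0 ext σ b' x) := by
    intro v hv x hx
    induction x using WellFoundedLT.induction with
    | ind x ih =>
      rw [chain_eq, chain_eq, h x (lt_of_lt_of_le hx hv)]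
      congr 3
      ext p
      simp only [prevs, mem_insert_iff, mem_setOf_eq]
      refine or_congr_right (exists_congr fun y => and_congr_right fun hy => ?_)
      rw [ih y hy (hy.trans hx)]
  ext p
  simp only [prevs, mem_insert_iff, mem_setOf_eq]
  refine or_congr_right (exists_congr fun y => and_congr_right fun hy => ?_)
  rw [key w le_rfl y hy]

end chain

/-- A branching family of descending chains meeting the given dense sets. -/
theorem exists_chains {P : Type*} [Preorder P] {W : Type*} [LinearOrder W] [WellFoundedLT W]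
    (hcl : ∀ c : ℕ → P, Antitone c → ∃ q, ∀ n, q ≤ c n)
    (hW : ∀ w : W, (Iio w).Countable) (D : W → Set P) (hD : ∀ w p, ∃ q ≤ p, q ∈ D w)
    (σ : P → Bool → P) (hσ : ∀ p b, σ p b ≤ p) (p0 : P) :
    ∃ c : (W → Bool) → W → P, (∀ b, Antitone (c b)) ∧ (∀ b w, c b w ∈ D w) ∧
      ∀ b b' w, (∀ v < w, b v = b' v) → ∃ q, c b w ≤ σ q (b w) ∧ c b' w ≤ σ q (b' w) := by
  choose ext hext hextD using fun (w : W) (p : P) => hD w p
  refine ⟨chain p0 ext σ, fun b v v' h => ?_, fun b w => ?_, fun b b' w h => ?_⟩
  · rcases h.lt_or_eq with h | rfl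
    · rw [chain_eq p0 ext σ b v']
      refine ((hext _ _).trans (hσ _ _)).trans ?_
      exact chain_spec p0 ext σ hcl hW hext hσ b v' _ (Or.inr ⟨v, h, rfl⟩)
    · exact le_rfl
  · rw [chain_eq]
    exact hextD _ _
  · refine ⟨lb p0 (prevs p0 ext σ b w), ?_, ?_⟩
    · rw [chain_eq]
      exact hext _ _
    · rw [chain_eq, prevs_congr p0 ext σ b b' w h]
      exact hext _ _

/-! ### Infinite sets of natural numbers -/

/-- A countable family of infinite sets has a pairwise disjoint refinement. -/
theorem exists_disjoint_refinement (S : ℕ → Set ℕ) :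
    ∃ R : ℕ → Set ℕ, Pairwise (Function.onFun Disjoint R) ∧ (∀ z, R z ⊆ S z) ∧
      ∀ z, (S z).Infinite → (R z).Infinite := by
  have h1 : ∀ n : ℕ, ∃ᶠ k in atTop, ((S n.unpair.1).Infinite → k ∈ S n.unpair.1) := by
    intro n
    by_cases h : (S n.unpair.1).Infinite
    · rw [← Nat.cofinite_eq_atTop]
      refine (frequently_cofinite_iff_infinite.2 h).mono fun k hk _ => hk
    · exact Frequently.mono (Eventually.of_forall fun _ => trivial).frequently
        fun k _ h' => absurd h' h
  obtain ⟨φ, hφ, hφ2⟩ := extraction_forall_of_frequently h1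
  refine ⟨fun z => {x | (S z).Infinite ∧ ∃ m, x = φ (Nat.pair z m)}, ?_, ?_, ?_⟩
  · intro z z' hz
    rw [Function.onFun, Set.disjoint_left]
    rintro x ⟨-, m, rfl⟩ ⟨-, m', hm⟩
    have := hφ.injective hm
    rw [Nat.pair_eq_pair] at this
    exact hz this.1
  · rintro z x ⟨h, m, rfl⟩
    have := hφ2 (Nat.pair z m)
    rw [Nat.unpair_pair] at this
    exact this h
  · intro z h
    have h2 : (range fun m => φ (Nat.pair z m)).Infinite := by
      refine infinite_range_of_injective fun m m' hm => ?_
      have := hφ.injective hm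
      rw [Nat.pair_eq_pair] at this
      exact this.2
    refine h2.mono ?_
    rintro x ⟨m, rfl⟩
    exact ⟨h, m, rfl⟩

/-- Pseudo-intersections. -/
theorem exists_pseudo (S : ℕ → Set ℕ) (hS : ∀ n, (S n).Infinite)
    (hdec : ∀ n, (S (n + 1) \ S n).Finite) :
    ∃ R : Set ℕ, R.Infinite ∧ ∀ n, (R \ S n).Finite := by
  have h0 : ∀ n, ∀ m ≤ n, (S n \ S m).Finite := by
    intro n
    induction n with
    | zero =>
      intro m hm
      obtain rfl : m = 0 := by omega
      simp
    | succ n ih =>
      intro m hm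
      rcases hm.lt_or_eq with h | rfl
      · refine ((hdec n).union (ih m (by omega))).subset ?_
        rintro x ⟨hx1, hx2⟩
        by_cases h3 : x ∈ S n
        · exact Or.inr ⟨h3, hx2⟩
        · exact Or.inl ⟨hx1, h3⟩
      · simp
  have h1 : ∀ n, (⋂ m ∈ Finset.range (n + 1), S m).Infinite := by
    intro n
    have h2 : S n ⊆ (⋂ m ∈ Finset.range (n + 1), S m) ∪ ⋃ m ∈ Finset.range (n + 1), (S n \ S m) := by
      intro x hx
      by_cases h3 : x ∈ ⋂ m ∈ Finset.range (n + 1), S m
      · exact Or.inl h3
      · right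
        simp only [mem_iInter, not_forall] at h3
        obtain ⟨m, hm, h4⟩ := h3
        simp only [mem_iUnion]
        exact ⟨m, hm, hx, h4⟩
    intro hfin
    refine hS n ((hfin.union ?_).subset h2)
    refine Set.Finite.biUnion (Finset.finite_toSet _) fun m hm => h0 n m ?_
    have := Finset.mem_range.1 hm
    omega
  have h3 : ∀ n, ∃ᶠ k in atTop, k ∈ ⋂ m ∈ Finset.range (n + 1), S m := by
    intro n
    rw [← Nat.cofinite_eq_atTop]
    exact frequently_cofinite_iff_infinite.2 (h1 n)
  obtain ⟨φ, hφ, hφ2⟩ := extraction_forall_of_frequently h3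
  refine ⟨range φ, infinite_range_of_injective hφ.injective, fun n => ?_⟩
  refine ((Set.finite_Iio n).image φ).subset ?_
  rintro x ⟨⟨m, rfl⟩, hx⟩
  refine ⟨m, ?_, rfl⟩
  by_contra hm
  have h4 := hφ2 m
  simp only [mem_iInter] at h4
  refine hx (h4 n ?_)
  rw [Finset.mem_range]
  have : ¬ m < n := hm
  omega

/-- Pseudo-intersections of the part of a sequence that is almost decreasing. -/
theorem exists_pseudo' (S : ℕ → Set ℕ) (good : ℕ → Prop) (hS : ∀ n, good n → (S n).Infinite)
    (hdec : ∀ n, good (n + 1) → (S (n + 1) \ S n).Finite) :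
    ∃ R : Set ℕ, (good 0 → R.Infinite) ∧ ∀ n, (∀ m ≤ n, good m) → (R \ S n).Finite := by
  classical
  by_cases hall : ∀ n, good n
  · obtain ⟨R, hR, hR2⟩ := exists_pseudo S (fun n => hS n (hall n)) (fun n => hdec n (hall _))
    exact ⟨R, fun _ => hR, fun n _ => hR2 n⟩
  · push Not at hall
    set N := Nat.find hall with hN
    have hN1 : ¬ good N := Nat.find_spec hall
    have hN2 : ∀ m < N, good m := fun m hm => by
      have := Nat.find_min hall hm
      push Not at this
      exact this
    refine ⟨S (N - 1), fun h0 => ?_, fun n hn => ?_⟩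
    · have : N ≠ 0 := fun h => hN1 (h ▸ h0)
      exact hS _ (hN2 _ (by omega))
    · have hnN : n < N := by
        by_contra h
        exact hN1 (hn N (by omega))
      have h0 : ∀ k, n + k < N → (S (n + k) \ S n).Finite := by
        intro k
        induction k with
        | zero => intro _; simp
        | succ k ih =>
          intro hk
          refine ((hdec (n + k) (hN2 _ hk)).union (ih (by omega))).subset ?_
          rintro x ⟨hx1, hx2⟩
          by_cases h3 : x ∈ S (n + k)
          · exact Or.inr ⟨h3, hx2⟩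
          · exact Or.inl ⟨hx1, h3⟩
      have := h0 (N - 1 - n) (by omega)
      rwa [show n + (N - 1 - n) = N - 1 by omega] at this

end Pool.Agent.RKTree
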