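import Pool.Agent.RKTree.Tower

/-!
# Extending towers whose countable subsets are bounded
-/

set_option autoImplicit false

open Set Filter

namespace Pool.Agent.RKTree

variable {I : Type*} [LinearOrder I] (T : Tower I)

/-- Conditions. -/
structure Cnd where
  /-- the index -/
  i : I
  /-- the fibres -/
  P : ℕ → Set ℕ
  disj : Pairwise (Function.onFun Disjoint P)
  inf : ∀ᶠ z in (T.u i : Filter ℕ), (P z).Infinite

theorem Tower.pull {i j : I} (hij : i ≤ j) {p : ℕ → Prop}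
    (h : ∀ᶠ z in (T.u i : Filter ℕ), p z) : ∀ᶠ z in (T.u j : Filter ℕ), p (T.g i j z) :=
  (eventually_map_iff (T.map i j hij)).1 h

theorem diff_finite_trans {A B C : Set ℕ} (h1 : (A \ B).Finite) (h2 : (B \ C).Finite) :
    (A \ C).Finite := by
  refine (h1.union h2).subset ?_
  rintro x ⟨hx1, hx2⟩
  by_cases h3 : x ∈ B
  · exact Or.inr ⟨h3, hx2⟩
  · exact Or.inl ⟨hx1, h3⟩

instance : Preorder (Cnd T) where
  le q p := p.i ≤ q.i ∧ ∀ᶠ z in (T.u q.i : Filter ℕ), (q.P z \ p.P (T.g p.i q.i z)).Finite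
  le_refl p := ⟨le_rfl, by
    filter_upwards [T.refl p.i] with z hz
    rw [hz]
    simp⟩
  le_trans r q p h1 h2 := ⟨h2.1.trans h1.1, by
    filter_upwards [h1.2, T.pull h1.1 h2.2, T.coh p.i q.i r.i h2.1 h1.1] with z h3 h4 h5
    rw [h5]
    exact diff_finite_trans h3 h4⟩

variable {T}

theorem Cnd.le_def {q p : Cnd T} : q ≤ p ↔ p.i ≤ q.i ∧
    ∀ᶠ z in (T.u q.i : Filter ℕ), (q.P z \ p.P (T.g p.i q.i z)).Finite := Iff.rfl

/-- The filter of a condition. -/
def Cnd.fil (p : Cnd T) : Set (Set ℕ) :=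
  {Z | ∀ᶠ z in (T.u p.i : Filter ℕ), (p.P z \ Z).Finite}

theorem Cnd.mem_fil {p : Cnd T} {Z : Set ℕ} :
    Z ∈ p.fil ↔ ∀ᶠ z in (T.u p.i : Filter ℕ), (p.P z \ Z).Finite := Iff.rfl

theorem Cnd.fil_mono {q p : Cnd T} (h : q ≤ p) : p.fil ⊆ q.fil := by
  intro Z hZ
  rw [Cnd.mem_fil] at hZ ⊢
  filter_upwards [h.2, T.pull h.1 hZ] with z h1 h2
  exact diff_finite_trans h1 h2

theorem Cnd.fil_univ (p : Cnd T) : univ ∈ p.fil := by
  rw [Cnd.mem_fil]
  exact Eventually.of_forall fun z => by simp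

theorem Cnd.fil_sup (p : Cnd T) (A : Set ℕ) (hA : A ∈ p.fil) (B : Set ℕ) (h : A ⊆ B) :
    B ∈ p.fil := by
  rw [Cnd.mem_fil] at hA ⊢
  exact hA.mono fun z hz => hz.subset (sdiff_subset_sdiff_right h)

theorem Cnd.fil_inter (p : Cnd T) (A : Set ℕ) (hA : A ∈ p.fil) (B : Set ℕ) (hB : B ∈ p.fil) :
    A ∩ B ∈ p.fil := by
  rw [Cnd.mem_fil] at hA hB ⊢
  filter_upwards [hA, hB] with z h1 h2
  refine (h1.union h2).subset ?_
  rintro x ⟨hx1, hx2⟩
  by_cases h3 : x ∈ A
  · exact Or.inr ⟨hx1, fun h4 => hx2 ⟨h3, h4⟩⟩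
  · exact Or.inl ⟨hx1, h3⟩

theorem Cnd.fil_empty (p : Cnd T) : ∅ ∉ p.fil := by
  intro h
  rw [Cnd.mem_fil] at h
  obtain ⟨z, h1, h2⟩ := (h.and p.inf).exists
  rw [sdiff_empty] at h1
  exact h2 h1

theorem Cnd.union_mem_fil (p : Cnd T) : (⋃ z, p.P z) ∈ p.fil := by
  rw [Cnd.mem_fil]
  refine Eventually.of_forall fun z => ?_
  have : p.P z \ (⋃ z, p.P z) = ∅ := sdiff_eq_empty.2 (subset_iUnion p.P z)
  rw [this]
  exact finite_empty

/-- Lower bounds of countable decreasing sequences, with prescribed index. -/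
theorem Cnd.exists_lower (c : ℕ → Cnd T) (hc : Antitone c) (j : I) (hj : ∀ n, (c n).i ≤ j) :
    ∃ q : Cnd T, q.i = j ∧ ∀ n, q ≤ c n := by
  set S : ℕ → ℕ → Set ℕ := fun z n => (c n).P (T.g (c n).i j z) with hS
  set good : ℕ → ℕ → Prop := fun z n => (S z n).Infinite ∧
    ∀ m, m + 1 = n → (S z (m + 1) \ S z m).Finite with hgood
  have hga : ∀ n, ∀ᶠ z in (T.u j : Filter ℕ), good z n := by
    intro n
    have h1 : ∀ᶠ z in (T.u j : Filter ℕ), (S z n).Infinite := T.pull (hj n) (c n).inf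
    cases n with
    | zero =>
      filter_upwards [h1] with z hz
      exact ⟨hz, fun m hm => by omega⟩
    | succ n =>
      have h2 := hc (Nat.le_succ n)
      filter_upwards [h1, T.pull (hj (n + 1)) h2.2,
        T.coh _ _ _ h2.1 (hj (n + 1))] with z hz h3 h4
      refine ⟨hz, fun m hm => ?_⟩
      obtain rfl : m = n := by omega
      simp only [hS]
      rw [h4]
      exact h3
  choose R hR0 hR using fun z => exists_pseudo' (S z) (good z) (fun n h => h.1)
    (fun n h => h.2 n rfl)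
  obtain ⟨Q, hQd, hQs, hQi⟩ := exists_disjoint_refinement R
  refine ⟨⟨j, Q, hQd, ?_⟩, rfl, fun n => ⟨hj n, ?_⟩⟩
  · filter_upwards [hga 0] with z hz
    exact hQi z (hR0 z hz)
  · have h1 : ∀ᶠ z in (T.u j : Filter ℕ), ∀ m ∈ Finset.range (n + 1), good z m :=
      (Finset.eventually_all _).2 fun m _ => hga m
    filter_upwards [h1] with z hz
    refine (hR z n fun m hm => hz m (Finset.mem_range.2 (by omega))).subset ?_
    exact sdiff_subset_sdiff_left (hQs z)

/-- The two halves of a condition. -/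
theorem Cnd.exists_split (p : Cnd T) : ∃ q : Bool → Cnd T, (∀ b, q b ≤ p) ∧
    ∃ A : Bool → Set ℕ, (∀ b, A b ∈ (q b).fil) ∧ Disjoint (A false) (A true) := by
  obtain ⟨Q, hQd, hQs, hQi⟩ := exists_disjoint_refinement fun n => p.P (n / 2)
  have hdiv : ∀ (z : ℕ) (b : Bool), (2 * z + b.toNat) / 2 = z := by
    intro z b
    cases b <;> simp <;> omega
  have hle : ∀ (z : ℕ) (b : Bool), Q (2 * z + b.toNat) ⊆ p.P z := by
    intro z b
    have := hQs (2 * z + b.toNat)
    simpa only [hdiv] using this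
  have hd : ∀ b : Bool, Pairwise (Function.onFun Disjoint fun z => Q (2 * z + b.toNat)) := by
    intro b z z' hz
    refine hQd ?_
    cases b <;> simp <;> omega
  have hi : ∀ b : Bool, ∀ᶠ z in (T.u p.i : Filter ℕ), (Q (2 * z + b.toNat)).Infinite := by
    intro b
    filter_upwards [p.inf] with z hz
    refine hQi _ ?_
    rw [hdiv]
    exact hz
  refine ⟨fun b => ⟨p.i, fun z => Q (2 * z + b.toNat), hd b, hi b⟩, fun b => ⟨le_rfl, ?_⟩,
    fun b => ⋃ z, Q (2 * z + b.toNat), fun b => ?_, ?_⟩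
  · filter_upwards [T.refl p.i] with z hz
    rw [hz, sdiff_eq_empty.2 (hle z b)]
    exact finite_empty
  · exact Cnd.union_mem_fil ⟨p.i, fun z => Q (2 * z + b.toNat), hd b, hi b⟩
  · rw [Set.disjoint_left]
    intro x hx hx'
    simp only [mem_iUnion] at hx hx'
    obtain ⟨z, hz⟩ := hx
    obtain ⟨z', hz'⟩ := hx'
    have hne : 2 * z + false.toNat ≠ 2 * z' + true.toNat := by
      simp
      omega
    exact Set.disjoint_left.1 (hQd hne) hz hz'

/-- Deciding a function. -/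
theorem Cnd.dense (p : Cnd T) (h : ℕ → ℕ) : ∃ q ≤ p,
    InjOn h (⋃ z, q.P z) ∨ ∃ k : ℕ → ℕ, ∀ z, ∀ x ∈ q.P z, h x = k z := by
  by_cases h1 : ∀ᶠ z in (T.u p.i : Filter ℕ), (h '' p.P z).Infinite
  · obtain ⟨R, hRd, hRs, hRi⟩ := exists_disjoint_refinement fun z => h '' p.P z
    choose σ hσ1 hσ2 using fun (z : ℕ) (y : R z) => hRs z y.2
    set Q : ℕ → Set ℕ := fun z => range (σ z) with hQ
    have hQP : ∀ z, Q z ⊆ p.P z := by
      rintro z x ⟨y, rfl⟩
      exact hσ1 z y
    have hQd : Pairwise (Function.onFun Disjoint Q) := by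
      intro z z' hz
      exact (p.disj hz).mono (hQP z) (hQP z')
    refine ⟨⟨p.i, Q, hQd, ?_⟩, ⟨le_rfl, ?_⟩, Or.inl ?_⟩
    · filter_upwards [h1] with z hz
      have h2 : (R z).Infinite := hRi z hz
      intro hfin
      refine h2 ((hfin.image h).subset ?_)
      intro y hy
      exact ⟨σ z ⟨y, hy⟩, ⟨⟨y, hy⟩, rfl⟩, hσ2 z ⟨y, hy⟩⟩
    · filter_upwards [T.refl p.i] with z hz
      rw [hz, sdiff_eq_empty.2 (hQP z)]
      exact finite_empty
    · intro x hx x' hx' hxx
      simp only [mem_iUnion] at hx hx'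
      obtain ⟨z, y, rfl⟩ := hx
      obtain ⟨z', y', rfl⟩ := hx'
      rw [hσ2, hσ2] at hxx
      have hzz : z = z' := by
        by_contra hne
        exact Set.disjoint_left.1 (hRd hne) y.2 (hxx ▸ y'.2)
      subst hzz
      rw [Subtype.ext hxx]
  · have h2 : ∀ᶠ z in (T.u p.i : Filter ℕ), ¬ (h '' p.P z).Infinite :=
      Ultrafilter.eventually_not.2 h1
    have h3 : ∀ z, ∃ k, (p.P z).Infinite → ¬ (h '' p.P z).Infinite →
        {x | x ∈ p.P z ∧ h x = k}.Infinite := by
      intro z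
      by_contra hcon
      push Not at hcon
      obtain ⟨hi, hf, -⟩ := hcon 0
      refine hi ((hf.biUnion fun k _ => (hcon k).2.2).subset ?_)
      intro x hx
      simp only [mem_iUnion]
      exact ⟨h x, ⟨x, hx, rfl⟩, hx, rfl⟩
    choose k hk using h3
    have hQP : ∀ z, {x | x ∈ p.P z ∧ h x = k z} ⊆ p.P z := fun z x hx => hx.1
    refine ⟨⟨p.i, fun z => {x | x ∈ p.P z ∧ h x = k z}, ?_, ?_⟩, ⟨le_rfl, ?_⟩,
      Or.inr ⟨k, fun z x hx => hx.2⟩⟩
    · intro z z' hz
      exact (p.disj hz).mono (hQP z) (hQP z')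
    · filter_upwards [h2, p.inf] with z hz1 hz2
      exact hk z hz2 hz1
    · filter_upwards [T.refl p.i] with z hz
      rw [hz, sdiff_eq_empty.2 (hQP z)]
      exact finite_empty

open Classical in
/-- The fibre map of a condition. -/
noncomputable def Cnd.fib (p : Cnd T) (x : ℕ) : ℕ := if h : ∃ z, x ∈ p.P z then h.choose else 0

theorem Cnd.fib_eq (p : Cnd T) {x z : ℕ} (hx : x ∈ p.P z) : p.fib x = z := by
  have h : ∃ z, x ∈ p.P z := ⟨z, hx⟩
  rw [Cnd.fib, dif_pos h]
  by_contra hne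
  exact Set.disjoint_left.1 (p.disj hne) h.choose_spec hx

/-- Sets of the filter of a condition, by fibres. -/
theorem Cnd.mem_fil_of (p : Cnd T) {Z : Set ℕ}
    (h : ∀ᶠ z in (T.u p.i : Filter ℕ), ∃ E : Set ℕ, E.Finite ∧ ∀ x ∈ p.P z, x ∉ E → x ∈ Z) :
    Z ∈ p.fil := by
  rw [Cnd.mem_fil]
  filter_upwards [h] with z hz
  obtain ⟨E, hE, h2⟩ := hz
  refine hE.subset ?_
  rintro x ⟨hx1, hx2⟩
  by_contra hx3
  exact hx2 (h2 x hx1 hx3)

theorem Cnd.fib_le {r p : Cnd T} (h : r ≤ p) : ∀ᶠ z in (T.u r.i : Filter ℕ),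
    ∃ E : Set ℕ, E.Finite ∧ ∀ x ∈ r.P z, x ∉ E → p.fib x = T.g p.i r.i z := by
  filter_upwards [h.2] with z hz
  refine ⟨_, hz, fun x hx hx2 => p.fib_eq ?_⟩
  by_contra hx3
  exact hx2 ⟨hx, hx3⟩

/-- Extensions of towers whose countable subsets are bounded. -/
theorem Tower.exists_ext_top (T : Tower I) [Nonempty I] {W : Type*} [LinearOrder W]
    [WellFoundedLT W] [Nonempty W] (hW : ∀ w : W, (Iio w).Countable)
    (hI : ∀ c : ℕ → I, ∃ j, ∀ n, c n ≤ j) (eI : W → I) (heI : Function.Surjective eI)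
    (eF : W → (ℕ → ℕ)) (heF : Function.Surjective eF) :
    ∃ v : (W → Bool) → Ultrafilter ℕ, Function.Injective v ∧ ∀ b, ∃ f, IsExt T (v b) f := by
  choose σ hσ A hA hAd using fun p : Cnd T => p.exists_split
  obtain ⟨R, hRd, hRs, hRi⟩ := exists_disjoint_refinement fun _ => (univ : Set ℕ)
  set p0 : Cnd T := ⟨Classical.arbitrary I, R, hRd, Eventually.of_forall fun z =>
    hRi z infinite_univ⟩
  set D : W → Set (Cnd T) := fun w => {p | eI w ≤ p.i ∧
    (InjOn (eF w) (⋃ z, p.P z) ∨ ∃ k : ℕ → ℕ, ∀ z, ∀ x ∈ p.P z, eF w x = k z)} with hD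
  have hcl : ∀ c : ℕ → Cnd T, Antitone c → ∃ q, ∀ n, q ≤ c n := by
    intro c hc
    obtain ⟨j, hj⟩ := hI fun n => (c n).i
    obtain ⟨q, -, hq⟩ := Cnd.exists_lower c hc j hj
    exact ⟨q, hq⟩
  have hDd : ∀ w p, ∃ q ≤ p, q ∈ D w := by
    intro w p
    obtain ⟨q, hq1, hq2⟩ := Cnd.exists_lower (fun _ => p) (fun _ _ _ => le_rfl) (max (eI w) p.i)
      (fun _ => le_max_right _ _)
    obtain ⟨r, hr, hr2⟩ := q.dense (eF w)
    refine ⟨r, hr.trans (hq2 0), ?_, hr2⟩
    calc eI w ≤ max (eI w) p.i := le_max_left _ _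
      _ = q.i := hq1.symm
      _ ≤ r.i := hr.1
  obtain ⟨c, hc1, hc2, hc3⟩ := exists_chains hcl hW D hDd (fun p b => σ p b) (fun p b => hσ p b) p0
  have hdec : ∀ (b : W → Bool) (A : Set ℕ), ∃ w, A ∈ (c b w).fil ∨ Aᶜ ∈ (c b w).fil := by
    classical
    intro b A
    obtain ⟨w, hw⟩ := heF fun x => if x ∈ A then 1 else 0
    refine ⟨w, ?_⟩
    rcases (hc2 b w).2 with h | ⟨k, hk⟩
    · exfalso
      obtain ⟨z, hz⟩ := (c b w).inf.exists
      have h1 : InjOn (eF w) ((c b w).P z) := h.mono (subset_iUnion _ z)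
      refine hz (Set.Finite.of_finite_image ((Set.finite_Iio 2).subset ?_) h1)
      rintro y ⟨x, -, rfl⟩
      rw [hw, mem_Iio]
      dsimp only
      split_ifs <;> omega
    · by_cases h1 : ∀ᶠ z in (T.u (c b w).i : Filter ℕ), k z = 1
      · left
        refine Cnd.mem_fil_of _ (h1.mono fun z hz => ⟨∅, finite_empty, fun x hx _ => ?_⟩)
        have := hk z x hx
        rw [hw, hz] at this
        by_contra hxA
        simp [hxA] at this
      · right
        refine Cnd.mem_fil_of _ ((Ultrafilter.eventually_not.2 h1).mono fun z hz =>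
          ⟨∅, finite_empty, fun x hx _ => ?_⟩)
        have := hk z x hx
        rw [hw] at this
        intro hxA
        simp only [hxA, if_true] at this
        exact hz this.symm
  choose v hv using fun b => exists_ultrafilter (fun w => (c b w).fil)
    (fun w w' h => Cnd.fil_mono (hc1 b h)) (fun w => Cnd.fil_univ _)
    (fun w A hA B hB => Cnd.fil_sup _ A hA B hB) (fun w A hA B hB => Cnd.fil_inter _ A hA B hB)
    (fun w => Cnd.fil_empty _) (hdec b)
  refine ⟨v, ?_, fun b => ?_⟩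
  · intro b b' hbb
    by_contra hne
    obtain ⟨w0, hw0⟩ := Function.ne_iff.1 hne
    obtain ⟨w, hw1, hw2⟩ := WellFounded.has_min (wellFounded_lt : WellFounded ((· < ·) : W → W → Prop))
      {w | b w ≠ b' w} ⟨w0, hw0⟩
    have hw3 : ∀ x < w, b x = b' x := fun x hx => by
      by_contra h
      exact hw2 x h hx
    obtain ⟨q, hq1, hq2⟩ := hc3 b b' w hw3
    have h1 : A q (b w) ∈ v b := (hv b _).2 ⟨w, Cnd.fil_mono hq1 (hA q (b w))⟩
    have h2 : A q (b' w) ∈ v b' := (hv b' _).2 ⟨w, Cnd.fil_mono hq2 (hA q (b' w))⟩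
    rw [← hbb] at h2
    have h3 : A q (b w) ∩ A q (b' w) ∈ v b := inter_mem h1 h2
    have h4 : A q (b w) ∩ A q (b' w) = ∅ := by
      rw [← disjoint_iff_inter_eq_empty]
      have h5 : b w ≠ b' w := hw1
      cases h6 : b w <;> cases h7 : b' w
      · exact absurd (h6.trans h7.symm) h5
      · exact hAd q
      · exact (hAd q).symm
      · exact absurd (h6.trans h7.symm) h5
    rw [h4] at h3
    exact (v b).empty_notMem h3
  · -- the maps
    choose w hw using heI
    have hwi : ∀ i, i ≤ (c b (w i)).i := fun i => by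
      have := (hc2 b (w i)).1
      rwa [hw i] at this
    set f : I → ℕ → ℕ := fun i x => T.g i (c b (w i)).i ((c b (w i)).fib x) with hf
    -- sets given fibrewise
    have hmem : ∀ (m : W) (Z : Set ℕ), (∀ᶠ z in (T.u (c b m).i : Filter ℕ),
        ∃ E : Set ℕ, E.Finite ∧ ∀ x ∈ (c b m).P z, x ∉ E → x ∈ Z) → Z ∈ v b :=
      fun m Z h => (hv b Z).2 ⟨m, Cnd.mem_fil_of _ h⟩
    -- independence of the condition
    have hind : ∀ (i : I) (m m' : W), i ≤ (c b m).i → i ≤ (c b m').i →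
        ∀ᶠ x in (v b : Filter ℕ), T.g i (c b m).i ((c b m).fib x) =
          T.g i (c b m').i ((c b m').fib x) := by
      intro i m m' hm hm'
      have key : ∀ m, i ≤ (c b m).i → ∀ r, m ≤ r →
          ∀ᶠ z in (T.u (c b r).i : Filter ℕ), ∃ E : Set ℕ, E.Finite ∧ ∀ x ∈ (c b r).P z, x ∉ E →
            T.g i (c b m).i ((c b m).fib x) = T.g i (c b r).i z := by
        intro m hm r hmr
        have hle := hc1 b hmr
        filter_upwards [Cnd.fib_le hle, T.coh i _ _ hm hle.1] with z hz1 hz2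
        obtain ⟨E, hE, hE2⟩ := hz1
        exact ⟨E, hE, fun x hx hx2 => by rw [hE2 x hx hx2, hz2]⟩
      refine hmem (max m m') _ ?_
      filter_upwards [key m hm _ (le_max_left m m'), key m' hm' _ (le_max_right m m')] with z h1 h2
      obtain ⟨E, hE, hE2⟩ := h1
      obtain ⟨E', hE', hE2'⟩ := h2
      refine ⟨E ∪ E', hE.union hE', fun x hx hx2 => ?_⟩
      rw [mem_union, not_or] at hx2
      change _ = _
      rw [hE2 x hx hx2.1, hE2' x hx hx2.2]
    have hfibmap : ∀ m, (v b).map (c b m).fib = T.u (c b m).i := by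
      intro m
      rw [← Ultrafilter.coe_le_coe]
      intro B hB
      rw [Ultrafilter.coe_map, mem_map]
      refine hmem m _ ?_
      filter_upwards [hB] with z hz
      refine ⟨∅, finite_empty, fun x hx _ => ?_⟩
      rw [mem_preimage, Cnd.fib_eq _ hx]
      exact hz
    refine ⟨f, ?_, ?_, ?_, ?_⟩
    · intro i
      have h1 : (v b).map (f i) = ((v b).map (c b (w i)).fib).map (T.g i (c b (w i)).i) := by
        rw [Ultrafilter.map_map]
        rfl
      rw [h1, hfibmap, T.map _ _ (hwi i)]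
    · intro i j hij
      have h1 := hind i (w i) (w j) (hwi i) (hij.trans (hwi j))
      have h2 := (eventually_map_iff (hfibmap (w j))).1 (T.coh i j _ hij (hwi j))
      filter_upwards [h1, h2] with x hx1 hx2
      simp only [hf]
      rw [hx1, hx2]
    · intro h
      obtain ⟨m, hm⟩ := heF h
      rcases (hc2 b m).2 with h1 | ⟨k, hk⟩
      · left
        rw [hm] at h1
        exact ⟨_, (hv b _).2 ⟨m, Cnd.union_mem_fil _⟩, h1⟩
      · right
        rw [hm] at hk
        obtain ⟨i, hi, hi2⟩ := T.cl (c b m).i k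
        refine ⟨i, ?_⟩
        have h2 : ∀ᶠ x in (v b : Filter ℕ), h x = k ((c b m).fib x) := by
          refine (hv b _).2 ⟨m, Cnd.fil_sup _ _ (Cnd.union_mem_fil _) _ ?_⟩
          intro x hx
          simp only [mem_iUnion] at hx
          obtain ⟨z, hz⟩ := hx
          change _ = _
          rw [hk z x hz, Cnd.fib_eq _ hz]
        have h3 := Eqv.comp (hfibmap m) hi2
        exact ((Eqv.of_eventuallyEq h2).trans h3).trans
          (Eqv.of_eventuallyEq (hind i m (w i) hi (hwi i)))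
    · rintro i ⟨Z, hZ, hZf⟩
      obtain ⟨m, hm⟩ := (hv b Z).1 hZ
      set r := max m (w i) with hr
      have hle := hc1 b (le_max_right m (w i))
      have h1 := Cnd.fil_mono (hc1 b (le_max_left m (w i))) hm
      rw [Cnd.mem_fil] at h1
      obtain ⟨z, hz1, hz2, hz3⟩ := (h1.and ((Cnd.fib_le hle).and (c b r).inf)).exists
      obtain ⟨E, hE, hE2⟩ := hz2
      refine hz3 (((hz1.union hE).union (hZf (T.g i (c b (w i)).i
        (T.g (c b (w i)).i (c b r).i z)))).subset ?_)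
      intro x hx
      by_cases hxZ : x ∈ Z
      · by_cases hxE : x ∈ E
        · exact Or.inl (Or.inr hxE)
        · right
          refine ⟨hxZ, ?_⟩
          rw [mem_preimage, mem_singleton_iff, hf]
          dsimp only
          rw [hE2 x hx hxE]
      · exact Or.inl (Or.inl ⟨hx, hxZ⟩)

end Pool.Agent.RKTree
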