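import Pool.Agent.RKTree.Gen

/-!
# Towers of ultrafilters
-/

set_option autoImplicit false

open Set Filter

namespace Pool.Agent.RKTree

/-- Rudin–Keisler reducibility: `u` is the image of `v` under some map. -/
def RK (u v : Ultrafilter ℕ) : Prop := ∃ f : ℕ → ℕ, u = v.map f

/-- `h` factors through `g` on a set of the ultrafilter `u`. -/
def Fac (u : Ultrafilter ℕ) (h g : ℕ → ℕ) : Prop := ∃ k : ℕ → ℕ, ∀ᶠ x in (u : Filter ℕ), h x = k (g x)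

/-- `h` and `g` factor through each other. -/
def Eqv (u : Ultrafilter ℕ) (h g : ℕ → ℕ) : Prop := Fac u h g ∧ Fac u g h

/-- `g` is finite-to-one on a set of `u`. -/
def FinTo (u : Ultrafilter ℕ) (g : ℕ → ℕ) : Prop := ∃ B ∈ u, ∀ z, (B ∩ g ⁻¹' {z}).Finite

theorem RK.refl (u : Ultrafilter ℕ) : RK u u := ⟨id, by rw [Ultrafilter.map_id]⟩

theorem RK.trans {u v w : Ultrafilter ℕ} (h1 : RK u v) (h2 : RK v w) : RK u w := by
  obtain ⟨f, rfl⟩ := h1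
  obtain ⟨g, rfl⟩ := h2
  exact ⟨f ∘ g, by rw [Ultrafilter.map_map]⟩

theorem Fac.trans {u : Ultrafilter ℕ} {h g k : ℕ → ℕ} (h1 : Fac u h g) (h2 : Fac u g k) :
    Fac u h k := by
  obtain ⟨a, ha⟩ := h1
  obtain ⟨b, hb⟩ := h2
  refine ⟨a ∘ b, ?_⟩
  filter_upwards [ha, hb] with x h3 h4
  rw [h3, h4]
  rfl

theorem Eqv.trans {u : Ultrafilter ℕ} {h g k : ℕ → ℕ} (h1 : Eqv u h g) (h2 : Eqv u g k) :
    Eqv u h k := ⟨h1.1.trans h2.1, h2.2.trans h1.2⟩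

theorem Eqv.symm {u : Ultrafilter ℕ} {h g : ℕ → ℕ} (h1 : Eqv u h g) : Eqv u g h := ⟨h1.2, h1.1⟩

theorem Eqv.of_eventuallyEq {u : Ultrafilter ℕ} {h g : ℕ → ℕ}
    (h1 : ∀ᶠ x in (u : Filter ℕ), h x = g x) : Eqv u h g :=
  ⟨⟨id, h1⟩, ⟨id, h1.mono fun _ hx => hx.symm⟩⟩

theorem eventually_map_iff {u v : Ultrafilter ℕ} {f : ℕ → ℕ} (h : v.map f = u) {p : ℕ → Prop} :
    (∀ᶠ z in (u : Filter ℕ), p z) ↔ ∀ᶠ x in (v : Filter ℕ), p (f x) := by
  rw [← h, Ultrafilter.coe_map, eventually_map]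

theorem Fac.comp {u v : Ultrafilter ℕ} {f h g : ℕ → ℕ} (hv : v.map f = u) (h1 : Fac u h g) :
    Fac v (fun x => h (f x)) (fun x => g (f x)) := by
  obtain ⟨k, hk⟩ := h1
  exact ⟨k, (eventually_map_iff hv).1 hk⟩

theorem Eqv.comp {u v : Ultrafilter ℕ} {f h g : ℕ → ℕ} (hv : v.map f = u) (h1 : Eqv u h g) :
    Eqv v (fun x => h (f x)) (fun x => g (f x)) := ⟨h1.1.comp hv, h1.2.comp hv⟩

theorem eqv_id_of_injOn {u : Ultrafilter ℕ} {h : ℕ → ℕ} {B : Set ℕ} (hB : B ∈ u)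
    (hh : InjOn h B) : Eqv u h id := by
  refine ⟨⟨h, Eventually.of_forall fun x => rfl⟩, ⟨Function.invFunOn h B, ?_⟩⟩
  filter_upwards [hB] with x hx
  exact ((hh.leftInvOn_invFunOn) hx).symm

theorem Eqv.RK_left {u : Ultrafilter ℕ} {h g : ℕ → ℕ} (h1 : Fac u h g) :
    RK (u.map h) (u.map g) := by
  obtain ⟨k, hk⟩ := h1
  refine ⟨k, ?_⟩
  rw [Ultrafilter.map_map]
  apply Ultrafilter.coe_injective
  rw [Ultrafilter.coe_map, Ultrafilter.coe_map]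
  exact Filter.map_congr hk

/-- Towers of ultrafilters indexed by a linear order. -/
structure Tower (I : Type*) [LinearOrder I] where
  /-- the ultrafilters -/
  u : I → Ultrafilter ℕ
  /-- the connecting maps -/
  g : I → I → ℕ → ℕ
  map : ∀ i j, i ≤ j → (u j).map (g i j) = u i
  coh : ∀ i j k, i ≤ j → j ≤ k → ∀ᶠ x in (u k : Filter ℕ), g i k x = g i j (g j k x)
  refl : ∀ i, ∀ᶠ x in (u i : Filter ℕ), g i i x = x
  cl : ∀ j (h : ℕ → ℕ), ∃ i ≤ j, Eqv (u j) h (g i j)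
  inf : ∀ i j, i < j → ¬ FinTo (u j) (g i j)

/-- An ultrafilter on top of a tower. -/
structure IsExt {I : Type*} [LinearOrder I] (T : Tower I) (v : Ultrafilter ℕ) (f : I → ℕ → ℕ) :
    Prop where
  map : ∀ i, v.map (f i) = T.u i
  coh : ∀ i j, i ≤ j → ∀ᶠ x in (v : Filter ℕ), f i x = T.g i j (f j x)
  cl : ∀ h : ℕ → ℕ, (∃ B ∈ v, InjOn h B) ∨ ∃ i, Eqv v h (f i)
  inf : ∀ i, ¬ FinTo v (f i)

/-! ### Ultrafilters from chains of filters -/

/-- The ultrafilter given by a directed family of families of sets that decides all sets. -/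
theorem exists_ultrafilter {X W : Type*} [LinearOrder W] [Nonempty W] (F : W → Set (Set X))
    (hmono : ∀ v w, v ≤ w → F v ⊆ F w) (huniv : ∀ w, univ ∈ F w)
    (hsup : ∀ w, ∀ A ∈ F w, ∀ B, A ⊆ B → B ∈ F w)
    (hinter : ∀ w, ∀ A ∈ F w, ∀ B ∈ F w, A ∩ B ∈ F w) (hempty : ∀ w, ∅ ∉ F w)
    (hdec : ∀ A : Set X, ∃ w, A ∈ F w ∨ Aᶜ ∈ F w) :
    ∃ U : Ultrafilter X, ∀ A : Set X, A ∈ U ↔ ∃ w, A ∈ F w := by
  let G : Filter X :=
    { sets := {A | ∃ w, A ∈ F w}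
      univ_sets := ⟨Classical.arbitrary W, huniv _⟩
      sets_of_superset := by
        rintro A B ⟨w, hw⟩ hAB
        exact ⟨w, hsup w A hw B hAB⟩
      inter_sets := by
        rintro A B ⟨w, hw⟩ ⟨w', hw'⟩
        exact ⟨max w w', hinter _ _ (hmono _ _ (le_max_left _ _) hw) _
          (hmono _ _ (le_max_right _ _) hw')⟩ }
  have hG : ∀ A, A ∈ G ↔ ∃ w, A ∈ F w := fun A => Iff.rfl
  refine ⟨Ultrafilter.ofComplNotMemIff G fun A => ?_, fun A => hG A⟩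
  rw [hG, hG]
  constructor
  · intro h
    obtain ⟨w, hw | hw⟩ := hdec A
    · exact ⟨w, hw⟩
    · exact absurd ⟨w, hw⟩ h
  · rintro ⟨w, hw⟩ ⟨w', hw'⟩
    refine hempty (max w w') ?_
    have := hinter _ _ (hmono _ _ (le_max_left w w') hw) _ (hmono _ _ (le_max_right w w') hw')
    rwa [inter_compl_self] at this

end Pool.Agent.RKTree
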