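import Pool.Agent.RKTree.Ext

/-!
# The tree of ultrafilters
-/

set_option autoImplicit false

open Set Filter Cardinal Ordinal

namespace Pool.Agent.RKTree

variable {K : Type} [Nonempty K]

/-- Good families of one-step extensions. -/
structure Good (α : Ordinal.{0}) (d : Ordinal.{0} → Dt) (e : K → Dt) : Prop where
  tow : ∀ x, Tow (Order.succ α) (Function.update d α (e x))
  ne : (∃ β, α = Order.succ β) → ∀ x y, x ≠ y → ¬ (RK (e x).1 (e y).1 ∧ RK (e y).1 (e x).1)

omit [Nonempty K] in
theorem exists_good (hCH : (𝔠 : Cardinal.{0}) = ℵ₁) (hK : #K = 2 ^ (𝔠 : Cardinal.{0}))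
    {α : Ordinal.{0}} (hα : α < ω_ 2) {d : Ordinal.{0} → Dt} (h : Tow α d) :
    ∃ e : K → Dt, Good α d e := by
  rcases Ordinal.zero_or_succ_or_isSuccLimit α with rfl | ⟨β, rfl⟩ | hlim
  · refine ⟨fun _ => (pure 0, fun _ => id), fun x => tow_one d, ?_⟩
    rintro ⟨β, hβ⟩
    exact absurd hβ (Order.bot_lt_succ β).ne
  · obtain ⟨e, he1, he2⟩ := h.exists_succ hCH hK hα
    exact ⟨e, he1, fun _ => he2⟩
  · obtain ⟨e, he⟩ := h.exists_limit hCH hlim hα
    refine ⟨fun _ => e, fun _ => he, ?_⟩
    rintro ⟨β, rfl⟩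
    exact absurd hlim (Order.not_isSuccLimit_succ β)

open Classical in
/-- The chosen one-step extensions. -/
noncomputable def stepFam (α : Ordinal.{0}) (d : Ordinal.{0} → Dt) : K → Dt :=
  if h : ∃ e : K → Dt, Good α d e then h.choose else fun _ => (pure 0, fun _ => id)

open Classical in
/-- The value of a sequence that is used at step `α`. -/
noncomputable def sel (p : Ordinal.{0} → K) (α : Ordinal.{0}) : K :=
  if h : ∃ β, α = Order.succ β then p h.choose else Classical.arbitrary K

open Classical in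
/-- The data along a sequence. -/
noncomputable def data (p : Ordinal.{0} → K) : Ordinal.{0} → Dt :=
  WellFoundedLT.fix (motive := fun _ => Dt) fun α prev =>
    stepFam α (fun β => if h : β < α then prev β h else (pure 0, fun _ => id)) (sel p α)

open Classical in
/-- The data below `α`. -/
noncomputable def prevTot (p : Ordinal.{0} → K) (α : Ordinal.{0}) : Ordinal.{0} → Dt :=
  fun β => if β < α then data p β else (pure 0, fun _ => id)

theorem data_eq (p : Ordinal.{0} → K) (α : Ordinal.{0}) :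
    data p α = stepFam α (prevTot p α) (sel p α) := by
  rw [data, WellFoundedLT.fix_eq]
  rfl

theorem sel_succ (p : Ordinal.{0} → K) (β : Ordinal.{0}) : sel p (Order.succ β) = p β := by
  have h : ∃ γ, Order.succ β = Order.succ γ := ⟨β, rfl⟩
  rw [sel, dif_pos h]
  congr 1
  exact (Order.succ_injective h.choose_spec).symm

theorem sel_congr {p p' : Ordinal.{0} → K} {α : Ordinal.{0}} (h : ∀ β < α, p β = p' β) :
    sel p α = sel p' α := by
  by_cases hα : ∃ β, α = Order.succ β
  · obtain ⟨β, rfl⟩ := hα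
    rw [sel_succ, sel_succ, h β (Order.lt_succ β)]
  · rw [sel, sel, dif_neg hα, dif_neg hα]

theorem data_congr {p p' : Ordinal.{0} → K} {α : Ordinal.{0}} (h : ∀ β < α, p β = p' β) :
    data p α = data p' α := by
  induction α using WellFoundedLT.induction with
  | ind α ih =>
    rw [data_eq, data_eq, sel_congr h]
    congr 1
    funext β
    simp only [prevTot]
    split_ifs with hβ
    · exact ih β hβ fun γ hγ => h γ (hγ.trans hβ)
    · rfl

theorem prevTot_congr {p p' : Ordinal.{0} → K} {β : Ordinal.{0}} (h : ∀ γ < β, p γ = p' γ) :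
    prevTot p (Order.succ β) = prevTot p' (Order.succ β) := by
  funext γ
  simp only [prevTot]
  split_ifs with hγ
  · exact data_congr fun δ hδ => h δ (hδ.trans_le (Order.lt_succ_iff.1 hγ))
  · rfl

theorem tow_data (hCH : (𝔠 : Cardinal.{0}) = ℵ₁) (hK : #K = 2 ^ (𝔠 : Cardinal.{0}))
    (p : Ordinal.{0} → K) (α : Ordinal.{0}) (hα : α < ω_ 2) :
    Good α (prevTot p α) (stepFam (K := K) α (prevTot p α)) ∧ Tow (Order.succ α) (data p) := by
  induction α using WellFoundedLT.induction with
  | ind α ih =>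
    have h1 : Tow α (data p) := Tow.of_forall fun β hβ => (ih β hβ (hβ.trans hα)).2
    have h2 : Tow α (prevTot p α) := h1.congr fun β hβ => by simp only [prevTot, if_pos hβ]
    have h3 : ∃ e : K → Dt, Good α (prevTot p α) e := exists_good hCH hK hα h2
    have h4 : Good α (prevTot p α) (stepFam (K := K) α (prevTot p α)) := by
      rw [stepFam, dif_pos h3]
      exact h3.choose_spec
    refine ⟨h4, (h4.tow (sel p α)).congr fun β hβ => ?_⟩
    rcases (Order.lt_succ_iff.1 hβ).lt_or_eq with h | rfl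
    · rw [Function.update_of_ne h.ne]
      simp only [prevTot, if_pos h]
    · rw [Function.update_self, data_eq]

/-! ### The embedding -/

theorem RK_of_le (hCH : (𝔠 : Cardinal.{0}) = ℵ₁) (hK : #K = 2 ^ (𝔠 : Cardinal.{0}))
    (p : Ordinal.{0} → K) {α β : Ordinal.{0}} (h : α ≤ β) (hβ : β < ω_ 2) :
    RK (data p α).1 (data p β).1 :=
  ⟨_, ((tow_data hCH hK p β hβ).2.map α β h (Order.lt_succ β)).symm⟩

theorem not_RK_of_lt (hCH : (𝔠 : Cardinal.{0}) = ℵ₁) (hK : #K = 2 ^ (𝔠 : Cardinal.{0}))
    (p : Ordinal.{0} → K) {α β : Ordinal.{0}} (h : α < β) (hβ : β < ω_ 2) :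
    ¬ RK (data p β).1 (data p α).1 :=
  (tow_data hCH hK p β hβ).2.str α β h (Order.lt_succ β)

theorem exists_of_RK (hCH : (𝔠 : Cardinal.{0}) = ℵ₁) (hK : #K = 2 ^ (𝔠 : Cardinal.{0}))
    (p : Ordinal.{0} → K) {β : Ordinal.{0}} (hβ : β < ω_ 2) {u : Ultrafilter ℕ}
    (hu : RK u (data p β).1) : ∃ α ≤ β, RK u (data p α).1 ∧ RK (data p α).1 u := by
  obtain ⟨f, rfl⟩ := hu
  obtain ⟨α, hα, h1, h2⟩ := (tow_data hCH hK p β hβ).2.cl β (Order.lt_succ β) f
  have h3 := (tow_data hCH hK p β hβ).2.map α β hα (Order.lt_succ β)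
  refine ⟨α, hα, ?_, ?_⟩
  · rw [← h3]
    exact Eqv.RK_left h1
  · rw [← h3]
    exact Eqv.RK_left h2

theorem eq_of_iso (hCH : (𝔠 : Cardinal.{0}) = ℵ₁) (hK : #K = 2 ^ (𝔠 : Cardinal.{0}))
    (α : Ordinal.{0}) (hα : α < ω_ 2) (α' : Ordinal.{0}) (hα' : α' < ω_ 2)
    (p p' : Ordinal.{0} → K) (h1 : RK (data p α).1 (data p' α').1)
    (h2 : RK (data p' α').1 (data p α).1) : α = α' ∧ ∀ β < α, p β = p' β := by
  induction α using WellFoundedLT.induction generalizing α' p p' with
  | ind α ih =>
    have key : ∀ γ < α, γ ≤ α' ∧ ∀ β < γ, p β = p' β := by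
      intro γ hγ
      have hγ2 : γ < ω_ 2 := hγ.trans hα
      have h3 : RK (data p γ).1 (data p' α').1 := (RK_of_le hCH hK p hγ.le hα).trans h1
      obtain ⟨δ, hδ, h4, h5⟩ := exists_of_RK hCH hK p' hα' h3
      obtain ⟨rfl, h6⟩ := ih γ hγ hγ2 δ (hδ.trans_lt hα') p p' h4 h5
      exact ⟨hδ, h6⟩
    have hA : α ≤ α' ∧ ∀ β < α, p β = p' β := by
      rcases Ordinal.zero_or_succ_or_isSuccLimit α with rfl | ⟨γ, rfl⟩ | hlim
      · exact ⟨bot_le, fun β hβ => absurd hβ (by simp)⟩
      · have hγ := Order.lt_succ γ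
        obtain ⟨h3, h4⟩ := key γ hγ
        have h5 : data p γ = data p' γ := data_congr h4
        have h6 : Order.succ γ ≤ α' := by
          rw [Order.succ_le_iff]
          refine lt_of_le_of_ne h3 ?_
          rintro rfl
          rw [← h5] at h1
          exact not_RK_of_lt hCH hK p hγ hα h1
        have h7 : RK (data p' (Order.succ γ)).1 (data p (Order.succ γ)).1 :=
          (RK_of_le hCH hK p' h6 hα').trans h2
        obtain ⟨δ, hδ, h8, h9⟩ := exists_of_RK hCH hK p hα h7
        have h10 : δ = Order.succ γ := by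
          refine le_antisymm hδ (le_of_not_gt fun hlt => ?_)
          have h11 : δ ≤ γ := Order.lt_succ_iff.1 hlt
          have h12 := h8.trans (RK_of_le hCH hK p h11 (hγ.trans hα))
          rw [h5] at h12
          exact not_RK_of_lt hCH hK p' hγ (h6.trans_lt hα') h12
        subst h10
        rw [data_eq p, data_eq p', sel_succ, sel_succ, prevTot_congr h4] at h8 h9
        have h11 : p γ = p' γ := by
          by_contra hne
          exact (tow_data hCH hK p' (Order.succ γ) hα).1.ne ⟨γ, rfl⟩ _ _ hne ⟨h9, h8⟩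
        refine ⟨h6, fun β hβ => ?_⟩
        rcases (Order.lt_succ_iff.1 hβ).lt_or_eq with h | rfl
        · exact h4 β h
        · exact h11
      · refine ⟨?_, fun β hβ => (key _ (hlim.succ_lt hβ)).2 β (Order.lt_succ β)⟩
        by_contra hcon
        push Not at hcon
        have := (key _ (hlim.succ_lt hcon)).1
        exact absurd this (not_le.2 (Order.lt_succ α'))
    refine ⟨?_, hA.2⟩
    refine le_antisymm hA.1 (le_of_not_gt fun hlt => ?_)
    rw [data_congr hA.2] at h2
    exact not_RK_of_lt hCH hK p' hlt hα' h2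

end Pool.Agent.RKTree
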